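import Mathlib

set_option autoImplicit false
open scoped Pointwise
open Filter Topology MeasureTheory Set

namespace Pool.Agent.H821R3

variable {n : ℕ}

/-- Convex bodies with the origin in the interior. -/
structure Body (K : Set (Fin n → ℝ)) : Prop where
  cpt : IsCompact K
  cvx : Convex ℝ K
  int : (0 : Fin n → ℝ) ∈ interior K

/-- The polar body with respect to the dot product. -/
def pol (K : Set (Fin n → ℝ)) : Set (Fin n → ℝ) := {y | ∀ x ∈ K, x ⬝ᵥ y ≤ 1}

theorem Body.nhds {K : Set (Fin n → ℝ)} (h : Body K) : K ∈ 𝓝 (0 : Fin n → ℝ) :=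
  mem_interior_iff_mem_nhds.mp h.int

theorem Body.zero_mem {K : Set (Fin n → ℝ)} (h : Body K) : (0 : Fin n → ℝ) ∈ K :=
  interior_subset h.int

theorem Body.absorbent {K : Set (Fin n → ℝ)} (h : Body K) : Absorbent ℝ K :=
  absorbent_nhds_zero h.nhds

theorem Body.gauge_le_one {K : Set (Fin n → ℝ)} (h : Body K) (x : Fin n → ℝ) :
    gauge K x ≤ 1 ↔ x ∈ K := by
  rw [gauge_le_one_iff_mem_closure h.cvx h.nhds, h.cpt.isClosed.closure_eq]

theorem Body.gauge_le {K : Set (Fin n → ℝ)} (h : Body K) (x : Fin n → ℝ) {r : ℝ} (hr : 0 < r) :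
    gauge K x ≤ r ↔ r⁻¹ • x ∈ K := by
  rw [← h.gauge_le_one, gauge_smul_of_nonneg (inv_nonneg.mpr hr.le), smul_eq_mul,
    inv_mul_le_iff₀ hr, mul_one]

theorem Body.gauge_pos {K : Set (Fin n → ℝ)} (h : Body K) {x : Fin n → ℝ} (hx : x ≠ 0) :
    0 < gauge K x :=
  (_root_.gauge_pos h.absorbent (h.cpt.isVonNBounded ℝ)).mpr hx

theorem Body.gauge_smul {K : Set (Fin n → ℝ)} {r : ℝ} (hr : 0 ≤ r) (x : Fin n → ℝ) :
    gauge K (r • x) = r * gauge K x := by
  rw [gauge_smul_of_nonneg hr, smul_eq_mul]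

theorem Body.gauge_add {K : Set (Fin n → ℝ)} (h : Body K) (x y : Fin n → ℝ) :
    gauge K (x + y) ≤ gauge K x + gauge K y := gauge_add_le h.cvx h.absorbent x y

theorem Body.continuous_gauge {K : Set (Fin n → ℝ)} (h : Body K) : Continuous (gauge K) :=
  _root_.continuous_gauge h.cvx h.nhds

theorem Body.ae_diff {K : Set (Fin n → ℝ)} (h : Body K) :
    ∀ᵐ z : Fin n → ℝ, DifferentiableAt ℝ (gauge K) z := by
  obtain ⟨C, hC⟩ := h.cvx.lipschitz_gauge h.nhds
  exact hC.ae_differentiableAt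

theorem dot_single (f : (Fin n → ℝ) →L[ℝ] ℝ) (x : Fin n → ℝ) :
    x ⬝ᵥ (fun i => f (Pi.single i 1)) = f x := by
  conv_rhs => rw [pi_eq_sum_univ' x]
  simp only [dotProduct, map_sum, map_smul, smul_eq_mul]

/-- every continuous functional is a dot product -/
theorem exists_dot (f : (Fin n → ℝ) →L[ℝ] ℝ) : ∃ y : Fin n → ℝ, ∀ x, f x = x ⬝ᵥ y :=
  ⟨_, fun x => (dot_single f x).symm⟩

theorem continuous_dot_right (y : Fin n → ℝ) : Continuous fun x : Fin n → ℝ => x ⬝ᵥ y := by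
  unfold dotProduct; fun_prop

theorem abs_dot_le (x y : Fin n → ℝ) : |x ⬝ᵥ y| ≤ n * (‖x‖ * ‖y‖) := by
  unfold dotProduct
  refine (Finset.abs_sum_le_sum_abs _ _).trans ?_
  calc ∑ i, |x i * y i| ≤ ∑ _i : Fin n, ‖x‖ * ‖y‖ := by
        refine Finset.sum_le_sum fun i _ => ?_
        rw [abs_mul]
        exact mul_le_mul (norm_le_pi_norm x i) (norm_le_pi_norm y i) (abs_nonneg _) (norm_nonneg _)
    _ = n * (‖x‖ * ‖y‖) := by simp

theorem pol_isClosed (K : Set (Fin n → ℝ)) : IsClosed (pol K) := by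
  have : pol K = ⋂ x ∈ K, {y | x ⬝ᵥ y ≤ 1} := by ext y; simp [pol]
  rw [this]
  refine isClosed_biInter fun x _ => isClosed_le ?_ continuous_const
  unfold dotProduct; fun_prop

theorem pol_convex (K : Set (Fin n → ℝ)) : Convex ℝ (pol K) := by
  intro y hy z hz a b ha hb hab x hx
  rw [dotProduct_add, dotProduct_smul, dotProduct_smul, smul_eq_mul, smul_eq_mul]
  have h1 := hy x hx
  have h2 := hz x hx
  nlinarith

/-- polar bodies are bodies -/
theorem Body.pol {K : Set (Fin n → ℝ)} (h : Body K) : Body (pol K) := by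
  refine ⟨?_, pol_convex K, ?_⟩
  · -- bounded
    refine Metric.isCompact_of_isClosed_isBounded (pol_isClosed K) ?_
    obtain ⟨r, hr, hrK⟩ := Metric.nhds_basis_closedBall.mem_iff.mp h.nhds
    refine (Metric.isBounded_closedBall (x := (0 : Fin n → ℝ)) (r := r⁻¹)).subset ?_
    intro y hy
    rw [mem_closedBall_zero_iff, pi_norm_le_iff_of_nonneg (by positivity)]
    intro i
    have hm : ∀ s : ℝ, |s| ≤ r → s * y i ≤ 1 := by
      intro s hs
      have h1 : (Pi.single i s : Fin n → ℝ) ∈ K := by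
        apply hrK
        rw [mem_closedBall_zero_iff, pi_norm_le_iff_of_nonneg hr.le]
        intro j
        by_cases hj : j = i
        · subst hj; simpa using hs
        · simp [hj, hr.le]
      have h2 := hy _ h1
      rwa [single_dotProduct] at h2
    have h1 := hm r (by rw [abs_of_pos hr])
    have h2 := hm (-r) (by rw [abs_neg, abs_of_pos hr])
    rw [Real.norm_eq_abs, ← one_div, le_div_iff₀' hr]
    rcases abs_cases (y i) with h3 | h3 <;> rw [h3.1] <;> linarith
  · obtain ⟨R, hR⟩ := h.cpt.isBounded.exists_norm_le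
    have hR0 : 0 ≤ R := (norm_nonneg _).trans (hR 0 h.zero_mem)
    rw [mem_interior_iff_mem_nhds]
    have hpos : 0 < 1 / (n * R + 1) := by positivity
    filter_upwards [Metric.ball_mem_nhds (0 : Fin n → ℝ) hpos] with y hy x hx
    rw [mem_ball_zero_iff, lt_div_iff₀ (by positivity)] at hy
    have h1 := (le_abs_self _).trans (abs_dot_le x y)
    have h2 := hR x hx
    have h3 : (n : ℝ) * (‖x‖ * ‖y‖) ≤ n * (R * ‖y‖) := by gcongr
    have h4 := norm_nonneg y
    nlinarith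

theorem exists_dot_separation {K : Set (Fin n → ℝ)} (hK : Convex ℝ K) (hc : IsClosed K)
    {x : Fin n → ℝ} (hx : x ∉ K) : ∃ (y : Fin n → ℝ) (u : ℝ), (∀ k ∈ K, k ⬝ᵥ y < u) ∧ u < x ⬝ᵥ y := by
  obtain ⟨f, u, hfu, hux⟩ := geometric_hahn_banach_closed_point hK hc hx
  obtain ⟨y, hy⟩ := exists_dot f
  exact ⟨y, u, fun k hk => by rw [← hy]; exact hfu k hk, by rw [← hy]; exact hux⟩

theorem Body.pol_pol {K : Set (Fin n → ℝ)} (h : Body K) : H821R3.pol (H821R3.pol K) = K := by
  refine Subset.antisymm ?_ fun x hx y hy => ?_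
  · intro x hx
    by_contra hcon
    obtain ⟨y, u, h1, h2⟩ := exists_dot_separation h.cvx h.cpt.isClosed hcon
    have hu : 0 < u := by simpa using h1 0 h.zero_mem
    have hy : u⁻¹ • y ∈ H821R3.pol K := by
      intro k hk
      rw [dotProduct_smul, smul_eq_mul, inv_mul_le_iff₀ hu, mul_one]
      exact (h1 k hk).le
    have h3 := hx _ hy
    rw [smul_dotProduct, smul_eq_mul, inv_mul_le_iff₀ hu, mul_one, dotProduct_comm] at h3
    linarith
  · rw [dotProduct_comm]; exact hy x hx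

theorem Body.dot_le {K : Set (Fin n → ℝ)} (h : Body K) (x y : Fin n → ℝ) :
    x ⬝ᵥ y ≤ gauge K x * gauge (H821R3.pol K) y := by
  rcases eq_or_ne x 0 with rfl | hx
  · simp
  rcases eq_or_ne y 0 with rfl | hy
  · simp
  have h1 := h.gauge_pos hx
  have h2 := h.pol.gauge_pos hy
  have h3 := (h.gauge_le x h1).mp le_rfl
  have h4 := (h.pol.gauge_le y h2).mp le_rfl
  have h5 := h4 _ h3
  rw [smul_dotProduct, dotProduct_smul, smul_eq_mul, smul_eq_mul, inv_mul_le_iff₀ h1, mul_one,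
    inv_mul_le_iff₀ h2] at h5
  linarith

theorem Body.exists_dot_eq {K : Set (Fin n → ℝ)} (h : Body K) (y : Fin n → ℝ) :
    ∃ x ∈ K, x ⬝ᵥ y = gauge (H821R3.pol K) y := by
  obtain ⟨x, hx, hmax⟩ := h.cpt.exists_isMaxOn ⟨0, h.zero_mem⟩
    (continuous_dot_right y).continuousOn
  refine ⟨x, hx, le_antisymm ?_ ?_⟩
  · refine (h.dot_le x y).trans ?_
    have h1 := (h.gauge_le_one x).mpr hx
    nlinarith [gauge_nonneg (s := H821R3.pol K) y]
  · rcases eq_or_ne y 0 with rfl | hy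
    · simp
    have h1 : 0 ≤ x ⬝ᵥ y := by simpa using hmax h.zero_mem
    rcases h1.lt_or_eq with h2 | h2
    · rw [h.pol.gauge_le y h2]
      intro k hk
      rw [dotProduct_smul, smul_eq_mul, inv_mul_le_iff₀ h2, mul_one]
      exact hmax hk
    · exfalso
      -- then `k ⬝ y ≤ 0` for all `k ∈ K`, so `t • y ∈ pol K` for all `t`
      have h3 : ∀ t : ℝ, 0 ≤ t → t • y ∈ H821R3.pol K := by
        intro t ht k hk
        rw [dotProduct_smul, smul_eq_mul]
        have : k ⬝ᵥ y ≤ x ⬝ᵥ y := hmax hk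
        nlinarith
      have h4 := h.pol.gauge_pos hy
      have h5 := (h.pol.gauge_le_one _).mpr (h3 (2 / gauge (H821R3.pol K) y) (by positivity))
      rw [Body.gauge_smul (by positivity), div_mul_cancel₀ _ h4.ne'] at h5
      norm_num at h5

theorem pol_union (K L : Set (Fin n → ℝ)) : pol (K ∪ L) = pol K ∩ pol L := by
  ext y; simp only [pol, mem_union, mem_ofPred_eq, mem_inter_iff]
  constructor
  · intro h; exact ⟨fun x hx => h x (Or.inl hx), fun x hx => h x (Or.inr hx)⟩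
  · rintro ⟨h1, h2⟩ x (hx | hx)
    · exact h1 x hx
    · exact h2 x hx

/-- on a segment from `K` to `L` inside `K ∪ L` there is a common point -/
theorem exists_common {K L : Set (Fin n → ℝ)} (hK : Body K) (hL : Body L)
    (hU : Convex ℝ (K ∪ L)) {x y : Fin n → ℝ} (hx : x ∈ K) (hy : y ∈ L) :
    ∃ z ∈ segment ℝ x y, z ∈ K ∧ z ∈ L := by
  have hs : segment ℝ x y ⊆ K ∪ L := hU.segment_subset (Or.inl hx) (Or.inr hy)
  have hpre : IsPreconnected (segment ℝ x y) := (convex_segment x y).isPreconnected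
  rw [isPreconnected_closed_iff] at hpre
  obtain ⟨z, hz, hzK, hzL⟩ := hpre K L hK.cpt.isClosed hL.cpt.isClosed hs
    ⟨x, left_mem_segment ℝ x y, hx⟩ ⟨y, right_mem_segment ℝ x y, hy⟩
  exact ⟨z, hz, hzK, hzL⟩

theorem pol_inter {K L : Set (Fin n → ℝ)} (hK : Body K) (hL : Body L)
    (hU : Convex ℝ (K ∪ L)) : pol (K ∩ L) = pol K ∪ pol L := by
  refine Subset.antisymm ?_ ?_
  · intro y hy
    by_contra hcon
    simp only [mem_union, not_or, pol, mem_ofPred_eq, not_forall, not_le] at hcon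
    obtain ⟨⟨a, ha, ha1⟩, ⟨b, hb, hb1⟩⟩ := hcon
    obtain ⟨z, ⟨s, t, hs, ht, hst, rfl⟩, hzK, hzL⟩ := exists_common hK hL hU ha hb
    have h1 := hy _ ⟨hzK, hzL⟩
    rw [add_dotProduct, smul_dotProduct, smul_dotProduct, smul_eq_mul, smul_eq_mul] at h1
    rcases hs.lt_or_eq with h2 | h2
    · nlinarith
    · subst h2; simp at hst; subst hst; linarith
  · rintro y (hy | hy) x hx
    · exact hy x hx.1
    · exact hy x hx.2

theorem Body.inter {K L : Set (Fin n → ℝ)} (hK : Body K) (hL : Body L) : Body (K ∩ L) :=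
  ⟨hK.cpt.inter_right hL.cpt.isClosed, hK.cvx.inter hL.cvx, by
    rw [interior_inter]; exact ⟨hK.int, hL.int⟩⟩

theorem Body.union {K L : Set (Fin n → ℝ)} (hK : Body K) (hL : Body L) (hU : Convex ℝ (K ∪ L)) :
    Body (K ∪ L) :=
  ⟨hK.cpt.union hL.cpt, hU, interior_mono subset_union_left hK.int⟩

theorem Body.gauge_inter {K L : Set (Fin n → ℝ)} (hK : Body K) (hL : Body L) (x : Fin n → ℝ) :
    gauge (K ∩ L) x = max (gauge K x) (gauge L x) := by
  have hI := hK.inter hL
  rcases eq_or_ne x 0 with rfl | hx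
  · simp
  apply le_antisymm
  · have hp : 0 < max (gauge K x) (gauge L x) := lt_max_of_lt_left (hK.gauge_pos hx)
    rw [hI.gauge_le x hp]
    exact ⟨(hK.gauge_le x hp).mp (le_max_left _ _), (hL.gauge_le x hp).mp (le_max_right _ _)⟩
  · have hp := hI.gauge_pos hx
    have h1 := (hI.gauge_le x hp).mp le_rfl
    exact max_le ((hK.gauge_le x hp).mpr h1.1) ((hL.gauge_le x hp).mpr h1.2)

theorem Body.gauge_union {K L : Set (Fin n → ℝ)} (hK : Body K) (hL : Body L)
    (hU : Convex ℝ (K ∪ L)) (x : Fin n → ℝ) :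
    gauge (K ∪ L) x = min (gauge K x) (gauge L x) := by
  have hI := hK.union hL hU
  rcases eq_or_ne x 0 with rfl | hx
  · simp
  apply le_antisymm
  · refine le_min ?_ ?_
    · rw [hI.gauge_le x (hK.gauge_pos hx)]
      exact Or.inl ((hK.gauge_le x (hK.gauge_pos hx)).mp le_rfl)
    · rw [hI.gauge_le x (hL.gauge_pos hx)]
      exact Or.inr ((hL.gauge_le x (hL.gauge_pos hx)).mp le_rfl)
  · have hp := hI.gauge_pos hx
    rcases (hI.gauge_le x hp).mp le_rfl with h1 | h1
    · exact min_le_of_left_le ((hK.gauge_le x hp).mpr h1)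
    · exact min_le_of_right_le ((hL.gauge_le x hp).mpr h1)

/-- the gradient -/
noncomputable def grad (f : (Fin n → ℝ) → ℝ) (z : Fin n → ℝ) : Fin n → ℝ :=
  fun i => fderiv ℝ f z (Pi.single i 1)

theorem dot_grad (f : (Fin n → ℝ) → ℝ) (z x : Fin n → ℝ) :
    x ⬝ᵥ grad f z = fderiv ℝ f z x := dot_single _ x

theorem measurable_grad (f : (Fin n → ℝ) → ℝ) : Measurable (grad f) := by
  refine measurable_pi_lambda _ fun i => ?_
  exact measurable_fderiv_apply_const ℝ f (Pi.single i 1)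

/-- line derivative -/
theorem line_tendsto {f : (Fin n → ℝ) → ℝ} {z : Fin n → ℝ} (hf : DifferentiableAt ℝ f z)
    (x : Fin n → ℝ) :
    Tendsto (fun t : ℝ => t⁻¹ * (f (z + t • x) - f z)) (𝓝[>] 0) (𝓝 (x ⬝ᵥ grad f z)) := by
  rw [dot_grad]
  have h1 := hf.hasFDerivAt.hasLineDerivAt x
  have h2 := h1.tendsto_slope_zero_right
  simpa using h2

/-- the point of the normal bundle over `z` -/
noncomputable def G (K : Set (Fin n → ℝ)) (z : Fin n → ℝ) : (Fin n → ℝ) × (Fin n → ℝ) :=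
  ((gauge K z)⁻¹ • z, grad (gauge K) z)

/-- the generalized normal bundle -/
def nor (K : Set (Fin n → ℝ)) : Set ((Fin n → ℝ) × (Fin n → ℝ)) :=
  {p | p.1 ∈ K ∧ p.2 ∈ pol K ∧ p.1 ⬝ᵥ p.2 = 1}

theorem Body.grad_le {K : Set (Fin n → ℝ)} (h : Body K) {z : Fin n → ℝ}
    (hz : DifferentiableAt ℝ (gauge K) z) (x : Fin n → ℝ) : x ⬝ᵥ grad (gauge K) z ≤ gauge K x := by
  refine le_of_tendsto (line_tendsto hz x) ?_
  filter_upwards [self_mem_nhdsWithin] with t ht
  have ht : 0 < t := ht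
  rw [inv_mul_le_iff₀ ht]
  have := h.gauge_add z (t • x)
  rw [Body.gauge_smul ht.le] at this
  linarith

theorem Body.grad_self {K : Set (Fin n → ℝ)} {z : Fin n → ℝ}
    (hz : DifferentiableAt ℝ (gauge K) z) : z ⬝ᵥ grad (gauge K) z = gauge K z := by
  refine tendsto_nhds_unique (line_tendsto hz z) ?_
  refine tendsto_const_nhds.congr' ?_
  filter_upwards [self_mem_nhdsWithin] with t ht
  have ht : 0 < t := ht
  have : z + t • z = (1 + t) • z := by rw [add_smul, one_smul]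
  rw [this, Body.gauge_smul (by positivity)]
  field_simp
  ring

theorem Body.grad_mem {K : Set (Fin n → ℝ)} (h : Body K) {z : Fin n → ℝ}
    (hz : DifferentiableAt ℝ (gauge K) z) : grad (gauge K) z ∈ H821R3.pol K := by
  intro x hx
  exact (h.grad_le hz x).trans ((h.gauge_le_one x).mpr hx)

theorem Body.G_mem {K : Set (Fin n → ℝ)} (h : Body K) {z : Fin n → ℝ} (h0 : z ≠ 0)
    (hz : DifferentiableAt ℝ (gauge K) z) : G K z ∈ nor K := by
  have hp := h.gauge_pos h0
  refine ⟨(h.gauge_le z hp).mp le_rfl, h.grad_mem hz, ?_⟩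
  simp only [G]
  rw [smul_dotProduct, Body.grad_self hz, smul_eq_mul, inv_mul_cancel₀ hp.ne']

theorem measurable_G {K : Set (Fin n → ℝ)} (h : Body K) : Measurable (G K) := by
  refine Measurable.prodMk ?_ (measurable_grad _)
  exact (h.continuous_gauge.measurable.inv).smul measurable_id

theorem ae_ne_zero (hn : 0 < n) : ∀ᵐ z : Fin n → ℝ, z ≠ 0 := by
  have : Nonempty (Fin n) := ⟨⟨0, hn⟩⟩
  have : Nontrivial (Fin n → ℝ) := Function.nontrivial
  rw [ae_iff]; simp

theorem Body.ae_G_mem {K : Set (Fin n → ℝ)} (h : Body K) (hn : 0 < n) :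
    ∀ᵐ z : Fin n → ℝ, G K z ∈ nor K := by
  filter_upwards [h.ae_diff, ae_ne_zero hn] with z h1 h2 using h.G_mem h2 h1

theorem nor_subset_prod (K : Set (Fin n → ℝ)) : nor K ⊆ K ×ˢ pol K := fun _ hp => ⟨hp.1, hp.2.1⟩

theorem nor_isClosed {K : Set (Fin n → ℝ)} (h : Body K) : IsClosed (nor K) := by
  have : nor K = (Prod.fst ⁻¹' K) ∩ ((Prod.snd ⁻¹' pol K) ∩ {p | p.1 ⬝ᵥ p.2 = 1}) := by
    ext p; simp [nor]
  rw [this]
  refine (h.cpt.isClosed.preimage continuous_fst).inter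
    (((pol_isClosed K).preimage continuous_snd).inter (isClosed_eq ?_ continuous_const))
  unfold dotProduct; fun_prop

theorem nor_isCompact {K : Set (Fin n → ℝ)} (h : Body K) : IsCompact (nor K) :=
  (h.cpt.prod h.pol.cpt).of_isClosed_subset (nor_isClosed h) (nor_subset_prod K)

theorem mem_nor_pol {K : Set (Fin n → ℝ)} (h : Body K) (p : (Fin n → ℝ) × (Fin n → ℝ)) :
    p ∈ nor (pol K) ↔ p.swap ∈ nor K := by
  simp only [nor, mem_ofPred_eq, Prod.fst_swap, Prod.snd_swap, h.pol_pol]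
  rw [dotProduct_comm]
  tauto

end Pool.Agent.H821R3
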