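import Pool.Agent.H821R3.Inv

set_option autoImplicit false
open scoped Pointwise Matrix
open Filter Topology MeasureTheory Set

namespace Pool.Agent.H821R3

variable {n : ℕ}

/-- convergence of bodies in the sense of gauges -/
def GConv (Ks : ℕ → Set (Fin n → ℝ)) (K : Set (Fin n → ℝ)) : Prop :=
  ∀ c : ℝ, 1 < c → ∀ᶠ j in atTop, ∀ z, gauge (Ks j) z ≤ c * gauge K z ∧
    gauge K z ≤ c * gauge (Ks j) z

theorem GConv.pol {Ks : ℕ → Set (Fin n → ℝ)} {K : Set (Fin n → ℝ)} (hKs : ∀ j, Body (Ks j))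
    (hK : Body K) (h : GConv Ks K) : GConv (fun j => H821R3.pol (Ks j)) (H821R3.pol K) := by
  intro c hc
  filter_upwards [h c hc] with j hj z
  have hc0 : 0 < c := by linarith
  constructor
  · obtain ⟨x, hx, hxe⟩ := (hKs j).exists_dot_eq z
    rw [← hxe]
    refine (hK.dot_le x z).trans ?_
    have h1 := (hj x).2
    have h2 := ((hKs j).gauge_le_one x).mpr hx
    have h3 : gauge K x ≤ c := h1.trans (by nlinarith)
    exact mul_le_mul_of_nonneg_right h3 (gauge_nonneg _)
  · obtain ⟨x, hx, hxe⟩ := hK.exists_dot_eq z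
    rw [← hxe]
    refine ((hKs j).dot_le x z).trans ?_
    have h1 := (hj x).1
    have h2 := (hK.gauge_le_one x).mpr hx
    have h3 : gauge (Ks j) x ≤ c := h1.trans (by nlinarith)
    exact mul_le_mul_of_nonneg_right h3 (gauge_nonneg _)

theorem GConv.tendsto {Ks : ℕ → Set (Fin n → ℝ)} {K : Set (Fin n → ℝ)}
    (h : GConv Ks K) (z : Fin n → ℝ) : Tendsto (fun j => gauge (Ks j) z) atTop (𝓝 (gauge K z)) := by
  have h0 := gauge_nonneg (s := K) z
  rw [tendsto_order]
  constructor
  · intro a ha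
    rcases lt_or_ge a 0 with ha0 | ha0
    · exact Eventually.of_forall fun j => ha0.trans_le (gauge_nonneg _)
    -- `a < g`, choose `c > 1` with `c * a < g`
    obtain ⟨c, hc1, hc2⟩ : ∃ c : ℝ, 1 < c ∧ c * a < gauge K z := by
      rcases ha0.lt_or_eq with h1 | h1
      · refine ⟨(1 + gauge K z / a) / 2, ?_, ?_⟩
        · have : 1 < gauge K z / a := by rw [lt_div_iff₀ h1]; linarith
          linarith
        · have : (1 + gauge K z / a) / 2 * a = (a + gauge K z) / 2 := by field_simp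
          rw [this]; linarith
      · subst h1; exact ⟨2, by norm_num, by simpa using ha⟩
    filter_upwards [h c hc1] with j hj
    have := (hj z).2
    have hc0 : 0 < c := by linarith
    by_contra hcon
    push Not at hcon
    have : c * gauge (Ks j) z ≤ c * a := by gcongr
    linarith
  · intro b hb
    obtain ⟨c, hc1, hc2⟩ : ∃ c : ℝ, 1 < c ∧ c * gauge K z < b := by
      rcases h0.lt_or_eq with h1 | h1
      · refine ⟨(1 + b / gauge K z) / 2, ?_, ?_⟩
        · have : 1 < b / gauge K z := by rw [lt_div_iff₀ h1]; linarith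
          linarith
        · have : (1 + b / gauge K z) / 2 * gauge K z = (gauge K z + b) / 2 := by field_simp
          rw [this]; linarith
      · rw [← h1] at hb ⊢; exact ⟨2, by norm_num, by simpa using hb⟩
    filter_upwards [h c hc1] with j hj
    exact ((hj z).1).trans_lt hc2

theorem gconv_of_hausdorff {Ks : ℕ → Set (Fin n → ℝ)} {K : Set (Fin n → ℝ)}
    (hKs : ∀ j, Body (Ks j)) (hK : Body K)
    (h : Tendsto (fun j => Metric.hausdorffDist (Ks j) K) atTop (𝓝 0)) : GConv Ks K := by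
  intro c hc
  obtain ⟨r, hr, hrK⟩ := Metric.nhds_basis_closedBall.mem_iff.mp hK.nhds
  have hg : ∀ x : Fin n → ℝ, r * gauge K x ≤ ‖x‖ := fun x =>
    mul_gauge_le_norm (Metric.ball_subset_closedBall.trans hrK)
  -- choose ε
  set ε : ℝ := r * ((c - 1) / c) with hε
  have hc0 : 0 < c := by linarith
  have hε0 : 0 < ε := by
    have : 0 < (c - 1) / c := div_pos (by linarith) hc0
    positivity
  have hev : ∀ᶠ j in atTop, Metric.hausdorffDist (Ks j) K < ε := h.eventually (gt_mem_nhds hε0)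
  filter_upwards [hev] with j hj z
  have hfin : Metric.hausdorffEDist (Ks j) K ≠ ⊤ :=
    Metric.hausdorffEDist_ne_top_of_nonempty_of_bounded ⟨0, (hKs j).zero_mem⟩ ⟨0, hK.zero_mem⟩
      (hKs j).cpt.isBounded hK.cpt.isBounded
  have hεr : ε / r = (c - 1) / c := by rw [hε]; field_simp
  have hg' : ∀ x : Fin n → ℝ, ‖x‖ ≤ ε → gauge K x ≤ (c - 1) / c := by
    intro x hx
    rw [← hεr, le_div_iff₀ hr]
    linarith [hg x]
  rcases eq_or_ne z 0 with rfl | hz
  · simp
  constructor
  · -- gauge (Ks j) z ≤ c * gauge K z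
    have hp := hK.gauge_pos hz
    rw [(hKs j).gauge_le z (by positivity)]
    by_contra hcon
    obtain ⟨y, u, hy1, hy2⟩ := exists_dot_separation (hKs j).cvx (hKs j).cpt.isClosed hcon
    have hu : 0 < u := by simpa using hy1 0 (hKs j).zero_mem
    obtain ⟨x', hx', hxe⟩ := hK.exists_dot_eq y
    set H := gauge (H821R3.pol K) y with hH
    obtain ⟨k, hk, hkd⟩ := Metric.exists_dist_lt_of_hausdorffDist_lt' hx' hj hfin
    have h1 : x' ⬝ᵥ y = k ⬝ᵥ y + (x' - k) ⬝ᵥ y := by rw [← add_dotProduct]; simp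
    have h2 : (x' - k) ⬝ᵥ y ≤ (c - 1) / c * H := by
      refine (hK.dot_le _ _).trans ?_
      refine mul_le_mul_of_nonneg_right (hg' _ ?_) (gauge_nonneg _)
      rw [← dist_eq_norm, dist_comm]; exact hkd.le
    have h3 := hy1 k hk
    have h4 : (c * gauge K z)⁻¹ • z ⬝ᵥ y ≤ H / c := by
      have h5 := hK.dot_le z y
      rw [smul_dotProduct, smul_eq_mul, inv_mul_le_iff₀ (by positivity)]
      calc z ⬝ᵥ y ≤ gauge K z * H := h5
        _ = c * gauge K z * (H / c) := by field_simp
    have h6 : (c - 1) / c * H + H / c = H := by field_simp; ring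
    linarith
  · -- gauge K z ≤ c * gauge (Ks j) z
    have hp := (hKs j).gauge_pos hz
    have hmem := ((hKs j).gauge_le z hp).mp le_rfl
    obtain ⟨k, hk, hkd⟩ := Metric.exists_dist_lt_of_hausdorffDist_lt hmem hj hfin
    have h1 := hK.gauge_add k ((gauge (Ks j) z)⁻¹ • z - k)
    rw [add_sub_cancel] at h1
    have h2 := (hK.gauge_le_one k).mpr hk
    have h3 := hg' ((gauge (Ks j) z)⁻¹ • z - k) (by rw [← dist_eq_norm]; exact hkd.le)
    rw [Body.gauge_smul (inv_nonneg.mpr hp.le)] at h1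
    have h4 : (c - 1) / c ≤ c - 1 := by
      rw [div_le_iff₀ hc0]; nlinarith
    have h5 : (gauge (Ks j) z)⁻¹ * gauge K z ≤ c := by linarith
    rwa [inv_mul_le_iff₀ hp, mul_comm] at h5

theorem grad_tendsto {Ks : ℕ → Set (Fin n → ℝ)} {K : Set (Fin n → ℝ)} (hKs : ∀ j, Body (Ks j))
    (h : GConv Ks K) {z : Fin n → ℝ} (hz : DifferentiableAt ℝ (gauge K) z)
    (hzs : ∀ j, DifferentiableAt ℝ (gauge (Ks j)) z) :
    Tendsto (fun j => grad (gauge (Ks j)) z) atTop (𝓝 (grad (gauge K) z)) := by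
  have upper : ∀ (u : Fin n → ℝ) (b : ℝ), u ⬝ᵥ grad (gauge K) z < b →
      ∀ᶠ j in atTop, u ⬝ᵥ grad (gauge (Ks j)) z < b := by
    intro u b hb
    have h1 := (line_tendsto hz u).eventually (gt_mem_nhds hb)
    obtain ⟨t, ht1, ht2⟩ := (h1.and self_mem_nhdsWithin).exists
    have ht : 0 < t := ht2
    have h2 : Tendsto (fun j => t⁻¹ * (gauge (Ks j) (z + t • u) - gauge (Ks j) z)) atTop
        (𝓝 (t⁻¹ * (gauge K (z + t • u) - gauge K z))) :=
      ((h.tendsto _).sub (h.tendsto _)).const_mul _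
    filter_upwards [h2.eventually (gt_mem_nhds ht1)] with j hj
    refine lt_of_le_of_lt ?_ hj
    rw [le_inv_mul_iff₀ ht]
    have h3 := (hKs j).grad_le (hzs j) (z + t • u)
    rw [add_dotProduct, smul_dotProduct, smul_eq_mul, Body.grad_self (hzs j)] at h3
    linarith
  rw [tendsto_pi_nhds]
  intro i
  have e : ∀ v : Fin n → ℝ, v i = (Pi.single i (1:ℝ)) ⬝ᵥ v := fun v => by
    rw [single_dotProduct, one_mul]
  rw [tendsto_order]
  constructor
  · intro a ha
    have h1 := upper (-(Pi.single i (1:ℝ))) (-a) (by rw [neg_dotProduct, ← e]; linarith)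
    filter_upwards [h1] with j hj
    rw [neg_dotProduct, ← e] at hj
    linarith
  · intro b hb
    have h1 := upper (Pi.single i (1:ℝ)) b (by rw [← e]; exact hb)
    filter_upwards [h1] with j hj
    rwa [← e] at hj

theorem integral_cm {K : Set (Fin n → ℝ)} (h : Body K) {F : (Fin n → ℝ) × (Fin n → ℝ) → ℝ}
    (hF : Continuous F) : ∫ p, F p ∂(cm K) = ∫ z, K.indicator (fun z => F (G K z)) z := by
  rw [cm, integral_map (measurable_G h).aemeasurable hF.aestronglyMeasurable,
    integral_indicator h.cpt.measurableSet]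

theorem tendsto_integral_cm {Ks : ℕ → Set (Fin n → ℝ)} {K : Set (Fin n → ℝ)}
    (hKs : ∀ j, Body (Ks j)) (hK : Body K) (hn : 0 < n)
    (h : GConv Ks K) {F : (Fin n → ℝ) × (Fin n → ℝ) → ℝ} (hF : Continuous F) :
    Tendsto (fun j => ∫ p, F p ∂(cm (Ks j))) atTop (𝓝 (∫ p, F p ∂(cm K))) := by
  simp_rw [integral_cm (hKs _) hF]
  rw [integral_cm hK hF]
  -- bound
  have hcpt : IsCompact (((2:ℝ) • K) ×ˢ ((2:ℝ) • H821R3.pol K)) :=
    (hK.cpt.smul 2).prod (hK.pol.cpt.smul 2)
  obtain ⟨C, hC⟩ := hcpt.exists_bound_of_continuousOn hF.continuousOn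
  have hC0 : 0 ≤ C := (norm_nonneg _).trans (hC (0, 0) ⟨⟨0, hK.zero_mem, by simp⟩,
    ⟨0, hK.pol.zero_mem, by simp⟩⟩)
  have h2 := h 2 (by norm_num)
  have h2p := h.pol hKs hK 2 (by norm_num)
  have mem2 : ∀ {A : Set (Fin n → ℝ)}, Body A → ∀ x, gauge A x ≤ 2 → x ∈ (2:ℝ) • A := by
    intro A hA x hx
    rw [hA.gauge_le x (by norm_num)] at hx
    exact ⟨_, hx, by simp⟩
  have hae : ∀ᵐ z : Fin n → ℝ, (∀ j, G (Ks j) z ∈ nor (Ks j)) ∧
      (∀ j, DifferentiableAt ℝ (gauge (Ks j)) z) ∧ DifferentiableAt ℝ (gauge K) z ∧ z ≠ 0 ∧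
      z ∉ frontier K := by
    have hf : ∀ᵐ z : Fin n → ℝ, z ∉ frontier K := by
      rw [ae_iff]; simpa using hK.cvx.addHaar_frontier volume
    filter_upwards [ae_all_iff.mpr fun j => (hKs j).ae_G_mem hn,
      ae_all_iff.mpr fun j => (hKs j).ae_diff, hK.ae_diff, ae_ne_zero hn, hf] with z a b c d e
    exact ⟨a, b, c, d, e⟩
  refine tendsto_integral_filter_of_dominated_convergence
    (((2:ℝ) • K).indicator fun _ => C) ?_ ?_ ?_ ?_
  · refine Eventually.of_forall fun j => ?_
    exact ((hF.measurable.comp (measurable_G (hKs j))).indicator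
      (hKs j).cpt.measurableSet).aestronglyMeasurable
  · filter_upwards [h2, h2p] with j hj hjp
    filter_upwards [hae] with z hz
    by_cases hzj : z ∈ Ks j
    · have hz2 : z ∈ (2:ℝ) • K := by
        refine mem2 hK z ((hj z).2.trans ?_)
        have := ((hKs j).gauge_le_one z).mpr hzj
        linarith
      rw [indicator_of_mem hzj, indicator_of_mem hz2]
      refine hC _ ⟨mem2 hK _ ((hj _).2.trans ?_), mem2 hK.pol _ ((hjp _).2.trans ?_)⟩
      · have := ((hKs j).gauge_le_one _).mpr (hz.1 j).1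
        linarith
      · have := ((hKs j).pol.gauge_le_one _).mpr (hz.1 j).2.1
        linarith
    · rw [indicator_of_notMem hzj, norm_zero]
      exact indicator_nonneg (fun _ _ => hC0) _
  · rw [integrable_indicator_iff (hK.cpt.smul (2:ℝ)).measurableSet]
    exact integrableOn_const (hK.cpt.smul (2:ℝ)).measure_lt_top.ne
  · filter_upwards [hae] with z hz
    obtain ⟨-, hd, hdK, hz0, hfr⟩ := hz
    have hne : gauge K z ≠ 1 := by
      intro hcon
      exact hfr ((gauge_eq_one_iff_mem_frontier hK.cvx hK.nhds).mp hcon)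
    rcases lt_or_gt_of_ne hne with hlt | hgt
    · have hzK : z ∈ K := (hK.gauge_le_one z).mp hlt.le
      rw [indicator_of_mem hzK]
      have hG : Tendsto (fun j => G (Ks j) z) atTop (𝓝 (G K z)) := by
        refine Tendsto.prodMk_nhds ?_ (grad_tendsto hKs h hdK hd)
        exact ((h.tendsto z).inv₀ (hK.gauge_pos hz0).ne').smul_const z
      refine ((hF.tendsto _).comp hG).congr' ?_
      filter_upwards [(h.tendsto z).eventually (gt_mem_nhds hlt)] with j hj
      rw [indicator_of_mem (((hKs j).gauge_le_one z).mp (le_of_lt hj))]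
      rfl
    · have hzK : z ∉ K := fun hcon => by
        have := (hK.gauge_le_one z).mpr hcon
        linarith
      rw [indicator_of_notMem hzK]
      refine tendsto_const_nhds.congr' ?_
      filter_upwards [(h.tendsto z).eventually (lt_mem_nhds hgt)] with j hj
      rw [indicator_of_notMem]
      intro hcon
      have := ((hKs j).gauge_le_one z).mpr hcon
      linarith

theorem tendsto_integral_dm {Ks : ℕ → Set (Fin n → ℝ)} {K : Set (Fin n → ℝ)}
    (hKs : ∀ j, Body (Ks j)) (hK : Body K) (hn : 0 < n)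
    (h : GConv Ks K) {F : (Fin n → ℝ) × (Fin n → ℝ) → ℝ} (hF : Continuous F) :
    Tendsto (fun j => ∫ p, F p ∂(dm (Ks j))) atTop (𝓝 (∫ p, F p ∂(dm K))) := by
  have e : ∀ A : Set (Fin n → ℝ), ∫ p, F p ∂(dm A) = ∫ p, F p.swap ∂(cm (H821R3.pol A)) := by
    intro A
    rw [dm, integral_map measurable_swap.aemeasurable hF.aestronglyMeasurable]
  simp_rw [e]
  exact tendsto_integral_cm (fun j => (hKs j).pol) hK.pol hn (h.pol hKs hK)
    (hF.comp continuous_swap)

end Pool.Agent.H821R3
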