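import Mathlib

set_option autoImplicit false
open scoped Matrix

namespace Pool.Agent.H821R3

theorem finrank_homog (p : ℕ) :
    Module.finrank ℝ (MvPolynomial.homogeneousSubmodule (Fin 3) ℝ p) = (3 + p - 1).choose p := by
  have h1 := MvPolynomial.homogeneousSubmodule_eq_finsupp_supported (Fin 3) ℝ p
  have e1 : MvPolynomial.homogeneousSubmodule (Fin 3) ℝ p ≃ₗ[ℝ]
      AddMonoidAlgebra.supported ℝ ℝ {d : Fin 3 →₀ ℕ | d.degree = p} := LinearEquiv.ofEq _ _ h1
  have e2 := e1.trans (AddMonoidAlgebra.supportedEquivFinsupp (R := ℝ) (S := ℝ)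
    {d : Fin 3 →₀ ℕ | d.degree = p})
  have hset : {d : Fin 3 →₀ ℕ | d.degree = p} =
      ((Finset.univ : Finset (Fin 3)).finsuppAntidiag p : Set (Fin 3 →₀ ℕ)) := by
    ext d
    simp [Finsupp.degree_eq_sum]
  rw [e2.finrank_eq, hset]
  rw [Module.finrank_finsupp_self]
  simp [Finset.card_finsuppAntidiag_nat_eq_choose]

theorem choose_ne_eight (p : ℕ) : (3 + p - 1).choose p ≠ 8 := by
  have h0 : 3 + p - 1 = p + 2 := by omega
  rw [h0, Nat.choose_symm_add, Nat.choose_two_right]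
  rcases Nat.lt_or_ge p 3 with h | h
  · interval_cases p <;> decide
  · have h1 : 20 ≤ (p + 2) * (p + 2 - 1) := by
      have : 5 * 4 ≤ (p + 2) * (p + 2 - 1) := Nat.mul_le_mul (by omega) (by omega)
      omega
    omega

theorem no_sym (p : ℕ) (e : (Fin 8 → ℝ) ≃ₗ[ℝ] MvPolynomial.homogeneousSubmodule (Fin 3) ℝ p) :
    False := by
  have h1 := e.finrank_eq
  rw [Module.finrank_fin_fun, finrank_homog] at h1
  exact choose_ne_eight p h1.symm

/-- traceless matrices -/
def tl (n : ℕ) : Submodule ℝ (Matrix (Fin n) (Fin n) ℝ) :=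
  LinearMap.ker (Matrix.traceLinearMap (Fin n) ℝ ℝ)

theorem mem_tl {n : ℕ} {A : Matrix (Fin n) (Fin n) ℝ} : A ∈ tl n ↔ A.trace = 0 := by
  simp [tl]

theorem finrank_tl : Module.finrank ℝ (tl 3) = 8 := by
  have h1 := LinearMap.finrank_range_add_finrank_ker (Matrix.traceLinearMap (Fin 3) ℝ ℝ)
  have h2 : LinearMap.range (Matrix.traceLinearMap (Fin 3) ℝ ℝ) = ⊤ := by
    rw [LinearMap.range_eq_top]
    intro c
    exact ⟨Matrix.diagonal (fun _ => c / 3), by simp [Matrix.trace_fin_three]; ring⟩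
  rw [h2, finrank_top, Module.finrank_self, Module.finrank_matrix] at h1
  simp at h1
  show Module.finrank ℝ (LinearMap.ker (Matrix.traceLinearMap (Fin 3) ℝ ℝ)) = 8
  omega

/-- coordinates on the traceless matrices -/
noncomputable def eW : tl 3 ≃ₗ[ℝ] (Fin 8 → ℝ) :=
  (Module.finBasisOfFinrankEq ℝ (tl 3) finrank_tl).equivFun

/-- conjugation -/
def conjL (n : ℕ) (T : Matrix.SpecialLinearGroup (Fin n) ℝ) : tl n →ₗ[ℝ] tl n where
  toFun A := ⟨(T : Matrix (Fin n) (Fin n) ℝ) * A.1 * ((T⁻¹ : Matrix.SpecialLinearGroup (Fin n) ℝ) :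
      Matrix (Fin n) (Fin n) ℝ), by
    rw [mem_tl, Matrix.trace_mul_comm, ← Matrix.mul_assoc, ← Matrix.SpecialLinearGroup.coe_mul,
      inv_mul_cancel, Matrix.SpecialLinearGroup.coe_one, Matrix.one_mul]
    exact mem_tl.mp A.2⟩
  map_add' A B := by
    ext1; simp [Matrix.mul_add, Matrix.add_mul]
  map_smul' c A := by
    ext1; simp

theorem conjL_coe (n : ℕ) (T : Matrix.SpecialLinearGroup (Fin n) ℝ) (A : tl n) :
    (conjL n T A : Matrix (Fin n) (Fin n) ℝ) = (T : Matrix (Fin n) (Fin n) ℝ) * A.1 *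
      ((T⁻¹ : Matrix.SpecialLinearGroup (Fin n) ℝ) : Matrix (Fin n) (Fin n) ℝ) := rfl

/-- the representation as matrices -/
noncomputable def rho0 : Matrix.SpecialLinearGroup (Fin 3) ℝ →* Matrix (Fin 8) (Fin 8) ℝ where
  toFun T := LinearMap.toMatrix' (eW.toLinearMap ∘ₗ conjL 3 T ∘ₗ eW.symm.toLinearMap)
  map_one' := by
    have : eW.toLinearMap ∘ₗ conjL 3 1 ∘ₗ eW.symm.toLinearMap = LinearMap.id := by
      ext1 x
      have : conjL 3 1 = LinearMap.id := by
        ext1 A
        apply Subtype.ext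
        rw [conjL_coe]
        simp
      simp [this]
    rw [this, LinearMap.toMatrix'_id]
  map_mul' S T := by
    rw [← LinearMap.toMatrix'_comp]
    congr 1
    refine LinearMap.ext fun x => ?_
    have h : ∀ A, conjL 3 (S * T) A = conjL 3 S (conjL 3 T A) := by
      intro A
      apply Subtype.ext
      rw [conjL_coe, conjL_coe, conjL_coe, mul_inv_rev]
      simp only [Matrix.SpecialLinearGroup.coe_mul, Matrix.mul_assoc]
    show eW (conjL 3 (S * T) (eW.symm x)) = eW (conjL 3 S (eW.symm (eW (conjL 3 T (eW.symm x)))))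
    rw [h, LinearEquiv.symm_apply_apply]

/-- the representation -/
noncomputable def rho : Matrix.SpecialLinearGroup (Fin 3) ℝ →*
    Matrix.GeneralLinearGroup (Fin 8) ℝ := rho0.toHomUnits

theorem rho_val (T : Matrix.SpecialLinearGroup (Fin 3) ℝ) : (rho T).val = rho0 T := rfl

theorem rho_mulVec (T : Matrix.SpecialLinearGroup (Fin 3) ℝ) (w : Fin 8 → ℝ) :
    (rho T).val *ᵥ w = eW (conjL 3 T (eW.symm w)) := by
  rw [rho_val]
  show LinearMap.toMatrix' _ *ᵥ w = _
  rw [LinearMap.toMatrix'_mulVec]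
  rfl

theorem rho_continuous : Continuous (fun A : {A : Matrix (Fin 3) (Fin 3) ℝ // A.det = 1} =>
      (rho (⟨A.1, A.2⟩ : Matrix.SpecialLinearGroup (Fin 3) ℝ)).val) := by
  refine continuous_matrix fun i j => ?_
  have h1 : ∀ T : Matrix.SpecialLinearGroup (Fin 3) ℝ,
      (rho T).val i j = eW (conjL 3 T (eW.symm (Pi.single j 1))) i := by
    intro T
    rw [← rho_mulVec, Matrix.mulVec_single_one]
    rfl
  refine Continuous.congr (f := fun A : {A : Matrix (Fin 3) (Fin 3) ℝ // A.det = 1} =>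
    eW (conjL 3 (⟨A.1, A.2⟩ : Matrix.SpecialLinearGroup (Fin 3) ℝ)
      (eW.symm (Pi.single j 1))) i) ?_ (fun A => (h1 _).symm)
  have hc : Continuous (eW : tl 3 → (Fin 8 → ℝ)) :=
    LinearMap.continuous_of_finiteDimensional eW.toLinearMap
  refine (continuous_apply i).comp (hc.comp ?_)
  refine Continuous.subtype_mk ?_ _
  have h2 : ∀ A : {A : Matrix (Fin 3) (Fin 3) ℝ // A.det = 1},
      (((⟨A.1, A.2⟩ : Matrix.SpecialLinearGroup (Fin 3) ℝ)⁻¹ :
        Matrix.SpecialLinearGroup (Fin 3) ℝ) : Matrix (Fin 3) (Fin 3) ℝ) = A.1.adjugate :=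
    fun A => Matrix.SpecialLinearGroup.coe_inv _
  refine Continuous.congr (f := fun A : {A : Matrix (Fin 3) (Fin 3) ℝ // A.det = 1} =>
    A.1 * (eW.symm (Pi.single j 1) : Matrix (Fin 3) (Fin 3) ℝ) * A.1.adjugate) ?_
    (fun A => by rw [← h2 A])
  exact ((continuous_subtype_val.matrix_mul continuous_const).matrix_mul
    continuous_subtype_val.matrix_adjugate)

/-! ### irreducibility -/

/-- matrix units -/
def E (i j : Fin 3) : Matrix (Fin 3) (Fin 3) ℝ := Matrix.single i j 1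

theorem E_mul_E {i j : Fin 3} (h : i ≠ j) : E i j * E i j = 0 := by
  simp [E, Matrix.single_mul_single_of_ne, h.symm]

theorem E_sandwich (i j : Fin 3) (A : Matrix (Fin 3) (Fin 3) ℝ) : E i j * A * E i j = A j i • E i j := by
  unfold E
  rw [Matrix.single_mul_mul_single]
  simp [Matrix.smul_single]

section Irr

variable {U : Submodule ℝ (Matrix (Fin 3) (Fin 3) ℝ)}
  (hinv : ∀ T S : Matrix (Fin 3) (Fin 3) ℝ, T * S = 1 → T.det = 1 → ∀ A ∈ U, T * A * S ∈ U)

include hinv

theorem irr_pm {i j : Fin 3} (h : i ≠ j) {A : Matrix (Fin 3) (Fin 3) ℝ} (hA : A ∈ U) :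
    E i j * A - A * E i j ∈ U ∧ A j i • E i j ∈ U := by
  have hE := E_mul_E h
  have d1 : (1 + E i j).det = 1 := Matrix.det_transvection_of_ne i j h 1
  have d2 : (1 - E i j).det = 1 := by
    have := Matrix.det_transvection_of_ne i j h (-1 : ℝ)
    rw [Matrix.transvection] at this
    convert this using 2
    rw [E, sub_eq_add_neg, Matrix.single_neg]
  have m1 : (1 + E i j) * (1 - E i j) = 1 := by
    rw [mul_sub, add_mul, add_mul, hE]; simp
  have m2 : (1 - E i j) * (1 + E i j) = 1 := by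
    rw [mul_add, sub_mul, sub_mul, hE]; simp
  have x1 := hinv _ _ m1 d1 A hA
  have x2 := hinv _ _ m2 d2 A hA
  have e1 : (1 + E i j) * A * (1 - E i j) = A + (E i j * A - A * E i j) - E i j * A * E i j := by
    noncomm_ring
  have e2 : (1 - E i j) * A * (1 + E i j) = A - (E i j * A - A * E i j) - E i j * A * E i j := by
    noncomm_ring
  rw [e1] at x1
  rw [e2] at x2
  constructor
  · have := U.smul_mem (1/2 : ℝ) (U.sub_mem x1 x2)
    convert this using 1
    module
  · have := U.neg_mem (U.sub_mem (U.smul_mem (1/2 : ℝ) (U.add_mem x1 x2)) hA)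
    rw [← E_sandwich]
    convert this using 1
    module

theorem irr_row {i j k : Fin 3} (hkj : k ≠ j) (h : E i j ∈ U) : E k j ∈ U := by
  rcases eq_or_ne k i with rfl | hki
  · exact h
  have h1 := (irr_pm hinv hki h).1
  have h2 : E k i * E i j - E i j * E k i = E k j := by
    simp [E, Matrix.single_mul_single_of_ne, hkj.symm]
  rwa [h2] at h1

theorem irr_col {i j l : Fin 3} (hli : l ≠ i) (h : E i j ∈ U) : E i l ∈ U := by
  rcases eq_or_ne l j with rfl | hlj
  · exact h
  have h1 := (irr_pm hinv hlj.symm h).1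
  have h2 : E j l * E i j - E i j * E j l = - E i l := by
    simp [E, Matrix.single_mul_single_of_ne, hli]
  rw [h2] at h1
  simpa using U.neg_mem h1

omit hinv in
theorem third : ∀ i k : Fin 3, ∃ m : Fin 3, m ≠ i ∧ m ≠ k := by decide

theorem irr_all {i j : Fin 3} (hij : i ≠ j) (h : E i j ∈ U) (k l : Fin 3) (hkl : k ≠ l) :
    E k l ∈ U := by
  rcases eq_or_ne k j with rfl | hkj
  · obtain ⟨m, hm1, hm2⟩ := third i k
    exact irr_col hinv hkl.symm (irr_row hinv hm2.symm (irr_col hinv hm1 h))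
  · exact irr_col hinv hkl.symm (irr_row hinv hkj h)

theorem irr_exists {A : Matrix (Fin 3) (Fin 3) ℝ} (hA : A ∈ U) (h0 : A ≠ 0) (htr : A.trace = 0) :
    ∃ i j, i ≠ j ∧ E i j ∈ U := by
  by_cases hoff : ∃ i j, i ≠ j ∧ A j i ≠ 0
  · obtain ⟨i, j, hij, hA1⟩ := hoff
    refine ⟨i, j, hij, ?_⟩
    have h1 := (irr_pm hinv hij hA).2
    have h2 := U.smul_mem (A j i)⁻¹ h1
    rwa [smul_smul, inv_mul_cancel₀ hA1, one_smul] at h2
  · push Not at hoff
    have hdiag : ∀ i j, i ≠ j → A i j = 0 := fun i j h => hoff j i h.symm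
    obtain ⟨i, j, hij, hne⟩ : ∃ i j, i ≠ j ∧ A i i ≠ A j j := by
      by_contra hcon
      push Not at hcon
      apply h0
      have h01 := hcon 0 1 (by decide)
      have h02 := hcon 0 2 (by decide)
      rw [Matrix.trace_fin_three] at htr
      have h00 : A 0 0 = 0 := by linarith
      ext i j
      by_cases h : i = j
      · subst h
        fin_cases i
        · exact h00
        · show A 1 1 = 0; linarith
        · show A 2 2 = 0; linarith
      · exact hdiag i j h
    refine ⟨i, j, hij, ?_⟩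
    have h1 := (irr_pm hinv hij hA).1
    have h2 : E i j * A - A * E i j = (A j j - A i i) • E i j := by
      ext a b
      simp only [E, Matrix.sub_apply, Matrix.smul_apply, smul_eq_mul]
      by_cases ha : a = i
      · subst ha
        by_cases hb : b = j
        · subst hb
          simp
        · simp [hb, hdiag, Ne.symm hb, hij]
      · simp [ha, Ne.symm ha]
        by_cases hb : b = j
        · subst hb
          simp [hdiag a i ha]
        · simp [Ne.symm hb, hb]
    rw [h2] at h1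
    have h3 := U.smul_mem (A j j - A i i)⁻¹ h1
    rwa [smul_smul, inv_mul_cancel₀ (sub_ne_zero.mpr hne.symm), one_smul] at h3

theorem irr_top {i j : Fin 3} (hij : i ≠ j) (h : E i j ∈ U) : tl 3 ≤ U := by
  have hall := irr_all hinv hij h
  have hd : ∀ k l : Fin 3, k ≠ l → E k k - E l l ∈ U := by
    intro k l hkl
    have h1 := (irr_pm hinv hkl (hall l k hkl.symm)).1
    have h2 : E k l * E l k - E l k * E k l = E k k - E l l := by simp [E]
    rwa [h2] at h1
  intro A hA
  rw [mem_tl, Matrix.trace_fin_three] at hA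
  have e : A = A 0 1 • E 0 1 + A 0 2 • E 0 2 + A 1 0 • E 1 0 + A 1 2 • E 1 2 + A 2 0 • E 2 0
      + A 2 1 • E 2 1 + A 0 0 • (E 0 0 - E 2 2) + A 1 1 • (E 1 1 - E 2 2) := by
    have h22 : A 2 2 = - A 0 0 - A 1 1 := by linarith
    ext a b
    fin_cases a <;> fin_cases b <;> simp [E, Matrix.single, h22]
    ring
  rw [e]
  refine U.add_mem (U.add_mem (U.add_mem (U.add_mem (U.add_mem (U.add_mem (U.add_mem ?_ ?_) ?_) ?_) ?_)
    ?_) ?_) ?_
  · exact U.smul_mem _ (hall 0 1 (by decide))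
  · exact U.smul_mem _ (hall 0 2 (by decide))
  · exact U.smul_mem _ (hall 1 0 (by decide))
  · exact U.smul_mem _ (hall 1 2 (by decide))
  · exact U.smul_mem _ (hall 2 0 (by decide))
  · exact U.smul_mem _ (hall 2 1 (by decide))
  · exact U.smul_mem _ (hd 0 2 (by decide))
  · exact U.smul_mem _ (hd 1 2 (by decide))

end Irr

theorem rho_irreducible (U : Submodule ℝ (Fin 8 → ℝ))
    (hU : ∀ T : Matrix.SpecialLinearGroup (Fin 3) ℝ, ∀ w ∈ U, Matrix.mulVec (rho T).val w ∈ U) :
    U = ⊥ ∨ U = ⊤ := by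
  by_cases hbot : U = ⊥
  · exact Or.inl hbot
  right
  obtain ⟨w, hw, hw0⟩ := (Submodule.ne_bot_iff U).mp hbot
  set U' : Submodule ℝ (Matrix (Fin 3) (Fin 3) ℝ) :=
    (U.comap eW.toLinearMap).map (tl 3).subtype with hU'
  have hmem : ∀ A : tl 3, eW A ∈ U ↔ (A : Matrix (Fin 3) (Fin 3) ℝ) ∈ U' := by
    intro A
    constructor
    · intro h; exact ⟨A, h, rfl⟩
    · rintro ⟨B, hB, hBA⟩
      have : B = A := Subtype.ext hBA
      rw [← this]; exact hB
  have hinv : ∀ T S : Matrix (Fin 3) (Fin 3) ℝ, T * S = 1 → T.det = 1 →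
      ∀ A ∈ U', T * A * S ∈ U' := by
    rintro T S hTS hT A ⟨B, hB, rfl⟩
    set T' : Matrix.SpecialLinearGroup (Fin 3) ℝ := ⟨T, hT⟩ with hT'
    have hS : ((T'⁻¹ : Matrix.SpecialLinearGroup (Fin 3) ℝ) : Matrix (Fin 3) (Fin 3) ℝ) = S := by
      have h1 : ((T'⁻¹ : Matrix.SpecialLinearGroup (Fin 3) ℝ) : Matrix (Fin 3) (Fin 3) ℝ) * T = 1 := by
        have := congrArg (fun M : Matrix.SpecialLinearGroup (Fin 3) ℝ =>
          (M : Matrix (Fin 3) (Fin 3) ℝ)) (inv_mul_cancel T')
        simpa only [Matrix.SpecialLinearGroup.coe_mul, Matrix.SpecialLinearGroup.coe_one] using this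
      calc ((T'⁻¹ : Matrix.SpecialLinearGroup (Fin 3) ℝ) : Matrix (Fin 3) (Fin 3) ℝ)
          = ((T'⁻¹ : Matrix.SpecialLinearGroup (Fin 3) ℝ) : Matrix (Fin 3) (Fin 3) ℝ) * (T * S) := by
            rw [hTS, mul_one]
        _ = S := by rw [← mul_assoc, h1, one_mul]
    have h2 := hU T' _ hB
    rw [rho_mulVec] at h2
    have h3 := (hmem _).mp h2
    rw [conjL_coe] at h3
    simp only [LinearEquiv.coe_coe, LinearEquiv.symm_apply_apply] at h3
    rw [hS] at h3
    exact h3
  have hA : ((eW.symm w : tl 3) : Matrix (Fin 3) (Fin 3) ℝ) ∈ U' :=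
    (hmem _).mp (by simpa using hw)
  have hA0 : ((eW.symm w : tl 3) : Matrix (Fin 3) (Fin 3) ℝ) ≠ 0 := by
    intro h
    apply hw0
    have : eW.symm w = 0 := Subtype.ext h
    simpa using this
  obtain ⟨i, j, hij, hE⟩ := irr_exists hinv hA hA0 (mem_tl.mp (eW.symm w).2)
  have htop := irr_top hinv hij hE
  rw [eq_top_iff]
  intro x _
  have h1 := (hmem (eW.symm x)).mpr (htop (eW.symm x).2)
  simpa using h1

end Pool.Agent.H821R3
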