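import Pool.Agent.H821R3.Val
import Pool.Agent.H821R3.Rep

set_option autoImplicit false
open scoped Pointwise Matrix
open Filter Topology MeasureTheory Set

namespace Pool.Agent.H821R3

/-- the traceless part of `x ⊗ y` -/
noncomputable def tau (n : ℕ) (p : (Fin n → ℝ) × (Fin n → ℝ)) : Matrix (Fin n) (Fin n) ℝ :=
  Matrix.vecMulVec p.1 p.2 - ((p.1 ⬝ᵥ p.2) / n) • (1 : Matrix (Fin n) (Fin n) ℝ)

theorem tau_mem {n : ℕ} (hn : 0 < n) (p : (Fin n → ℝ) × (Fin n → ℝ)) : tau n p ∈ tl n := by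
  rw [mem_tl, tau, Matrix.trace_sub, Matrix.trace_smul, Matrix.trace_vecMulVec, Matrix.trace_one]
  have : (n : ℝ) ≠ 0 := by positivity
  simp
  field_simp
  ring

theorem tau_continuous (n : ℕ) : Continuous (tau n) := by
  unfold tau
  refine Continuous.sub ?_ ?_
  · refine continuous_matrix fun i j => ?_
    simp only [Matrix.vecMulVec_apply]
    fun_prop
  · have : Continuous fun p : (Fin n → ℝ) × (Fin n → ℝ) => p.1 ⬝ᵥ p.2 := by
      unfold dotProduct; fun_prop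
    exact (this.div_const _).smul continuous_const

theorem tau_act {n : ℕ} (T S : Matrix (Fin n) (Fin n) ℝ) (h2 : S * T = 1) (h1 : T * S = 1)
    (p : (Fin n → ℝ) × (Fin n → ℝ)) :
    tau n (T *ᵥ p.1, Sᵀ *ᵥ p.2) = T * tau n p * S := by
  unfold tau
  have e1 : (T *ᵥ p.1) ⬝ᵥ (Sᵀ *ᵥ p.2) = p.1 ⬝ᵥ p.2 := by
    rw [Matrix.mulVec_transpose, dotProduct_comm, ← Matrix.dotProduct_mulVec,
      Matrix.mulVec_mulVec, h2, Matrix.one_mulVec, dotProduct_comm]
  have e2 : Matrix.vecMulVec (T *ᵥ p.1) (Sᵀ *ᵥ p.2) = T * Matrix.vecMulVec p.1 p.2 * S := by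
    rw [Matrix.mul_vecMulVec, Matrix.vecMulVec_mul, Matrix.mulVec_transpose]
  simp only [e1, e2]
  rw [Matrix.mul_sub, Matrix.sub_mul, Matrix.mul_smul, Matrix.smul_mul, Matrix.mul_one, h1]

/-- the map into `ℝ⁸` -/
noncomputable def vv (p : (Fin 3 → ℝ) × (Fin 3 → ℝ)) : Fin 8 → ℝ :=
  eW ⟨tau 3 p, tau_mem (by norm_num) p⟩

theorem vv_continuous : Continuous vv := by
  have hc : Continuous (eW : tl 3 → (Fin 8 → ℝ)) :=
    LinearMap.continuous_of_finiteDimensional eW.toLinearMap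
  exact hc.comp ((tau_continuous 3).subtype_mk _)

/-- entry functional -/
noncomputable def lent : (Fin 8 → ℝ) →L[ℝ] ℝ :=
  LinearMap.toContinuousLinearMap
    ((LinearMap.proj (1 : Fin 3) ∘ₗ (LinearMap.proj (0 : Fin 3) :
      (Fin 3 → Fin 3 → ℝ) →ₗ[ℝ] (Fin 3 → ℝ))) ∘ₗ (tl 3).subtype ∘ₗ eW.symm.toLinearMap)

theorem lent_vv (p : (Fin 3 → ℝ) × (Fin 3 → ℝ)) : lent (vv p) = p.1 0 * p.2 1 := by
  have : lent (vv p) = tau 3 p 0 1 := by
    show (((eW.symm (vv p) : tl 3) : Matrix (Fin 3) (Fin 3) ℝ)) 0 1 = _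
    unfold vv
    rw [LinearEquiv.symm_apply_apply]
  rw [this]
  simp [tau, Matrix.vecMulVec_apply]

theorem sl_inv_mul (T : Matrix.SpecialLinearGroup (Fin 3) ℝ) :
    ((T⁻¹ : Matrix.SpecialLinearGroup (Fin 3) ℝ) : Matrix (Fin 3) (Fin 3) ℝ) *
      (T : Matrix (Fin 3) (Fin 3) ℝ) = 1 := by
  rw [← Matrix.SpecialLinearGroup.coe_mul, inv_mul_cancel, Matrix.SpecialLinearGroup.coe_one]

theorem sl_mul_inv (T : Matrix.SpecialLinearGroup (Fin 3) ℝ) :
    (T : Matrix (Fin 3) (Fin 3) ℝ) *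
      ((T⁻¹ : Matrix.SpecialLinearGroup (Fin 3) ℝ) : Matrix (Fin 3) (Fin 3) ℝ) = 1 := by
  rw [← Matrix.SpecialLinearGroup.coe_mul, mul_inv_cancel, Matrix.SpecialLinearGroup.coe_one]

theorem Phi_vv_invariant (T : Matrix.SpecialLinearGroup (Fin 3) ℝ) {K : Set (Fin 3 → ℝ)}
    (hK : Body K) :
    Matrix.mulVec (rho T).val '' Phi vv (Matrix.mulVec
      ((T⁻¹ : Matrix.SpecialLinearGroup (Fin 3) ℝ) : Matrix (Fin 3) (Fin 3) ℝ) '' K) =
      Phi vv K := by
  set A : Matrix (Fin 3) (Fin 3) ℝ := (T : Matrix (Fin 3) (Fin 3) ℝ) with hA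
  set B : Matrix (Fin 3) (Fin 3) ℝ :=
    ((T⁻¹ : Matrix.SpecialLinearGroup (Fin 3) ℝ) : Matrix (Fin 3) (Fin 3) ℝ) with hB
  have hAB : A * B = 1 := sl_mul_inv T
  have hBA : B * A = 1 := sl_inv_mul T
  have hK' : Body (B.mulVec '' K) := by
    rw [← eqv_image B A hBA hAB]; exact hK.image _
  have r1 : (rho T).val * (rho T⁻¹).val = 1 := by
    rw [rho_val, rho_val, ← map_mul, mul_inv_cancel, map_one]
  have r2 : (rho T⁻¹).val * (rho T).val = 1 := by
    rw [rho_val, rho_val, ← map_mul, inv_mul_cancel, map_one]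
  have hdet : |A.det| = 1 := by rw [hA, Matrix.SpecialLinearGroup.det_coe, abs_one]
  have h := Phi_equivariant hK' A B hAB hBA hdet vv_continuous (eqv _ _ r1 r2) (fun p => by
    rw [eqv_apply, rho_mulVec]
    unfold vv
    rw [LinearEquiv.symm_apply_apply]
    congr 1
    apply Subtype.ext
    rw [conjL_coe]
    exact tau_act A B hBA hAB p)
  have e : A.mulVec '' (B.mulVec '' K) = K := by
    rw [image_image]
    simp [Matrix.mulVec_mulVec, hAB]
  rw [e] at h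
  rw [h]
  rfl

theorem not_continuous_Phi {n : ℕ} {W : Type*} [NormedAddCommGroup W] [NormedSpace ℝ W]
    [FiniteDimensional ℝ W] {v : (Fin n → ℝ) × (Fin n → ℝ) → W} (hv : Continuous v)
    (hn : 2 ≤ n) (hne : Phi v (eball n) ≠ {0}) :
    ∃ Ks : ℕ → Set (Fin n → ℝ), (∀ j, Body (Ks j)) ∧
      Tendsto (fun j => Metric.hausdorffDist (Ks j) (eball n)) atTop (𝓝 0) ∧
      ¬ Tendsto (fun j => Metric.hausdorffDist (Phi v (Ks j)) (Phi v (eball n))) atTop (𝓝 0) := by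
  have hn0 : 0 < n := by omega
  choose F hF hFB hFd using fun j : ℕ => exists_polytope_approx hn0
    (show (0:ℝ) < 1 / ((j : ℝ) + 1) by positivity)
  refine ⟨fun j => convexHull ℝ (F j), hFB, ?_, ?_⟩
  · exact squeeze_zero (fun _ => Metric.hausdorffDist_nonneg) hFd
      tendsto_one_div_add_atTop_nhds_zero_nat
  · intro h
    simp_rw [Phi_polytope v (hFB _) (hF _) hn] at h
    have h0 := tendsto_nhds_unique h tendsto_const_nhds
    obtain ⟨hne', hcpt, -⟩ := Phi_body (eball_body n) hn0 hv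
    apply hne
    have := (IsClosed.hausdorffDist_zero_iff_eq isClosed_singleton hcpt.isClosed
      (Metric.hausdorffEDist_ne_top_of_nonempty_of_bounded (singleton_nonempty 0) hne'
        Bornology.isBounded_singleton hcpt.isBounded)).mp h0.symm
    exact this.symm

end Pool.Agent.H821R3
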