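import Pool.Agent.H821R3.Meas

set_option autoImplicit false
open scoped Pointwise Matrix
open Filter Topology MeasureTheory Set

namespace Pool.Agent.H821R3

variable {n : ℕ}

/-- the linear equivalence given by an invertible matrix -/
noncomputable def eqv (T S : Matrix (Fin n) (Fin n) ℝ) (h1 : T * S = 1) (h2 : S * T = 1) :
    (Fin n → ℝ) ≃L[ℝ] (Fin n → ℝ) where
  toFun := T.mulVec
  invFun := S.mulVec
  map_add' := Matrix.mulVec_add T
  map_smul' := fun c x => Matrix.mulVec_smul T c x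
  left_inv := fun x => by simp [Matrix.mulVec_mulVec, h2]
  right_inv := fun x => by simp [Matrix.mulVec_mulVec, h1]
  continuous_toFun := by fun_prop
  continuous_invFun := by fun_prop

theorem eqv_apply (T S : Matrix (Fin n) (Fin n) ℝ) (h1 : T * S = 1) (h2 : S * T = 1)
    (x : Fin n → ℝ) : eqv T S h1 h2 x = T *ᵥ x := rfl

theorem eqv_symm_apply (T S : Matrix (Fin n) (Fin n) ℝ) (h1 : T * S = 1) (h2 : S * T = 1)
    (x : Fin n → ℝ) : (eqv T S h1 h2).symm x = S *ᵥ x := rfl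

theorem eqv_image (T S : Matrix (Fin n) (Fin n) ℝ) (h1 : T * S = 1) (h2 : S * T = 1)
    (K : Set (Fin n → ℝ)) : (eqv T S h1 h2) '' K = T.mulVec '' K := rfl

theorem Body.image {K : Set (Fin n → ℝ)} (h : Body K) (e : (Fin n → ℝ) ≃L[ℝ] (Fin n → ℝ)) :
    Body (e '' K) := by
  refine ⟨h.cpt.image e.continuous, ?_, ?_⟩
  · exact h.cvx.is_linear_image e.toLinearEquiv.toLinearMap.isLinear
  · have h1 := e.toHomeomorph.image_interior K
    rw [ContinuousLinearEquiv.coe_toHomeomorph] at h1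
    rw [← h1]
    exact ⟨0, h.int, map_zero e⟩

theorem Body.gauge_image {K : Set (Fin n → ℝ)} (h : Body K) (e : (Fin n → ℝ) ≃L[ℝ] (Fin n → ℝ))
    (z : Fin n → ℝ) : gauge (e '' K) z = gauge K (e.symm z) := by
  rcases eq_or_ne z 0 with rfl | hz
  · simp
  have hz' : e.symm z ≠ 0 := by simpa using hz
  have key : ∀ r : ℝ, 0 < r → (gauge (e '' K) z ≤ r ↔ gauge K (e.symm z) ≤ r) := by
    intro r hr
    rw [(h.image e).gauge_le _ hr, h.gauge_le _ hr, ← map_smul]
    constructor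
    · rintro ⟨x, hx, hxe⟩
      rw [← hxe]; simpa using hx
    · intro hx
      exact ⟨_, hx, by simp⟩
  exact le_antisymm ((key _ (h.gauge_pos hz')).mpr le_rfl)
    ((key _ ((h.image e).gauge_pos hz)).mp le_rfl)

theorem G_image {K : Set (Fin n → ℝ)} (h : Body K) (T S : Matrix (Fin n) (Fin n) ℝ)
    (h1 : T * S = 1) (h2 : S * T = 1) (z : Fin n → ℝ) :
    G (T.mulVec '' K) (T *ᵥ z) = (T *ᵥ (G K z).1, Sᵀ *ᵥ (G K z).2) := by
  have hg : ∀ w, gauge (T.mulVec '' K) w = gauge K (S *ᵥ w) := fun w => by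
    rw [← eqv_image T S h1 h2, h.gauge_image]; rfl
  have hST : S *ᵥ (T *ᵥ z) = z := by rw [Matrix.mulVec_mulVec, h2, Matrix.one_mulVec]
  simp only [G, Prod.mk.injEq]
  constructor
  · rw [hg, hST, Matrix.mulVec_smul]
  · have e1 : gauge (T.mulVec '' K) = gauge K ∘ (eqv S T h2 h1) := by
      funext w; rw [hg]; rfl
    funext i
    have e2 : fderiv ℝ (gauge (T.mulVec '' K)) (T *ᵥ z) =
        (fderiv ℝ (gauge K) z).comp ((eqv S T h2 h1) : (Fin n → ℝ) →L[ℝ] (Fin n → ℝ)) := by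
      rw [e1, ContinuousLinearEquiv.comp_right_fderiv]
      rw [eqv_apply, hST]
    have e3 : grad (gauge (T.mulVec '' K)) (T *ᵥ z) i =
        (Pi.single i (1:ℝ)) ⬝ᵥ grad (gauge (T.mulVec '' K)) (T *ᵥ z) := by
      rw [single_dotProduct, one_mul]
    rw [e3, dot_grad, e2]
    show fderiv ℝ (gauge K) z (S *ᵥ (Pi.single i 1)) = _
    rw [← dot_grad, Matrix.mulVec_transpose, dotProduct_comm, Matrix.dotProduct_mulVec,
      dotProduct_single, mul_one]

theorem measurable_mulVec (T : Matrix (Fin n) (Fin n) ℝ) :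
    Measurable fun x : Fin n → ℝ => T *ᵥ x := by
  apply Continuous.measurable; fun_prop

/-- action on the normal bundle -/
noncomputable def act (T S : Matrix (Fin n) (Fin n) ℝ) (h1 : T * S = 1) (h2 : S * T = 1) :
    ((Fin n → ℝ) × (Fin n → ℝ)) ≃ᵐ ((Fin n → ℝ) × (Fin n → ℝ)) where
  toFun := fun p => (T *ᵥ p.1, Sᵀ *ᵥ p.2)
  invFun := fun p => (S *ᵥ p.1, Tᵀ *ᵥ p.2)
  left_inv := fun p => by
    simp [Matrix.mulVec_mulVec, h2, ← Matrix.transpose_mul]
  right_inv := fun p => by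
    simp [Matrix.mulVec_mulVec, h1, ← Matrix.transpose_mul]
  measurable_toFun := ((measurable_mulVec T).comp measurable_fst).prodMk
    ((measurable_mulVec _).comp measurable_snd)
  measurable_invFun := ((measurable_mulVec S).comp measurable_fst).prodMk
    ((measurable_mulVec _).comp measurable_snd)

theorem act_apply (T S : Matrix (Fin n) (Fin n) ℝ) (h1 : T * S = 1) (h2 : S * T = 1)
    (p : (Fin n → ℝ) × (Fin n → ℝ)) : act T S h1 h2 p = (T *ᵥ p.1, Sᵀ *ᵥ p.2) := rfl

theorem cm_image {K : Set (Fin n → ℝ)} (h : Body K) (T S : Matrix (Fin n) (Fin n) ℝ)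
    (h1 : T * S = 1) (h2 : S * T = 1) (hdet : |T.det| = 1) :
    cm (T.mulVec '' K) = (cm K).map (act T S h1 h2) := by
  have hTK : Body (T.mulVec '' K) := by rw [← eqv_image T S h1 h2]; exact h.image _
  ext Q hQ
  rw [MeasurableEquiv.map_apply, cm_apply hTK hQ, cm_apply h ((act T S h1 h2).measurable hQ)]
  have e : G (T.mulVec '' K) ⁻¹' Q ∩ T.mulVec '' K =
      (Matrix.toLin' T) '' (G K ⁻¹' (act T S h1 h2 ⁻¹' Q) ∩ K) := by
    ext w
    constructor
    · rintro ⟨hw, x, hx, rfl⟩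
      refine ⟨x, ⟨?_, hx⟩, by simp⟩
      rw [mem_preimage, G_image h T S h1 h2] at hw
      exact hw
    · rintro ⟨x, ⟨hxQ, hx⟩, rfl⟩
      rw [Matrix.toLin'_apply]
      refine ⟨?_, x, hx, rfl⟩
      rw [mem_preimage, G_image h T S h1 h2]
      exact hxQ
  rw [e, Measure.addHaar_image_linearMap, LinearMap.det_toLin', hdet, ENNReal.ofReal_one, one_mul]

theorem pol_image (K : Set (Fin n → ℝ)) (T S : Matrix (Fin n) (Fin n) ℝ)
    (h1 : T * S = 1) (h2 : S * T = 1) : pol (T.mulVec '' K) = Sᵀ.mulVec '' pol K := by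
  ext y
  constructor
  · intro hy
    refine ⟨Tᵀ *ᵥ y, ?_, ?_⟩
    · intro x hx
      have := hy _ ⟨x, hx, rfl⟩
      rwa [Matrix.mulVec_transpose, dotProduct_comm, ← Matrix.dotProduct_mulVec, dotProduct_comm]
    · rw [Matrix.mulVec_mulVec, ← Matrix.transpose_mul, h1, Matrix.transpose_one,
        Matrix.one_mulVec]
  · rintro ⟨y, hy, rfl⟩ _ ⟨x, hx, rfl⟩
    have := hy x hx
    rw [Matrix.mulVec_transpose, dotProduct_comm, ← Matrix.dotProduct_mulVec,
      Matrix.mulVec_mulVec, h2, Matrix.one_mulVec, dotProduct_comm]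
    exact this

theorem dm_image {K : Set (Fin n → ℝ)} (h : Body K) (T S : Matrix (Fin n) (Fin n) ℝ)
    (h1 : T * S = 1) (h2 : S * T = 1) (hdet : |T.det| = 1) :
    dm (T.mulVec '' K) = (dm K).map (act T S h1 h2) := by
  have h1' : Sᵀ * Tᵀ = 1 := by rw [← Matrix.transpose_mul, h1, Matrix.transpose_one]
  have h2' : Tᵀ * Sᵀ = 1 := by rw [← Matrix.transpose_mul, h2, Matrix.transpose_one]
  have hdS : |Sᵀ.det| = 1 := by
    rw [Matrix.det_transpose]
    have := congrArg Matrix.det h1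
    rw [Matrix.det_mul, Matrix.det_one] at this
    have h3 := congrArg abs this
    rwa [abs_mul, hdet, one_mul, abs_one] at h3
  rw [dm, pol_image K T S h1 h2, cm_image h.pol Sᵀ Tᵀ h1' h2' hdS, dm,
    Measure.map_map measurable_swap (MeasurableEquiv.measurable _),
    Measure.map_map (MeasurableEquiv.measurable _) measurable_swap]
  rfl

theorem map_inf_equiv {α β : Type*} [MeasurableSpace α] [MeasurableSpace β] (e : α ≃ᵐ β)
    (μ ν : Measure α) : (μ ⊓ ν).map e = μ.map e ⊓ ν.map e := by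
  ext s hs
  rw [e.map_apply, Measure.inf_apply (e.measurable hs), Measure.inf_apply hs]
  congr 1
  ext m
  constructor
  · rintro ⟨t, rfl⟩
    refine ⟨e '' t, ?_⟩
    rw [e.map_apply, e.map_apply, preimage_inter, preimage_inter, preimage_compl,
      preimage_image_eq _ e.injective]
  · rintro ⟨t, rfl⟩
    refine ⟨e ⁻¹' t, ?_⟩
    rw [e.map_apply, e.map_apply, preimage_inter, preimage_inter, preimage_compl]

theorem hm_image {K : Set (Fin n → ℝ)} (h : Body K) (T S : Matrix (Fin n) (Fin n) ℝ)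
    (h1 : T * S = 1) (h2 : S * T = 1) (hdet : |T.det| = 1) :
    hm (T.mulVec '' K) = (hm K).map (act T S h1 h2) := by
  rw [hm, cm_image h T S h1 h2 hdet, dm_image h T S h1 h2 hdet, hm, map_inf_equiv]

end Pool.Agent.H821R3
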