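import Pool.Agent.H821R3.Basic

set_option autoImplicit false
open scoped Pointwise
open Filter Topology MeasureTheory Set

namespace Pool.Agent.H821R3

variable {n : ℕ}

/-- the cone-volume measure lifted to the normal bundle -/
noncomputable def cm (K : Set (Fin n → ℝ)) : Measure ((Fin n → ℝ) × (Fin n → ℝ)) :=
  (volume.restrict K).map (G K)

/-- the cone-volume measure of the polar body, lifted to the normal bundle -/
noncomputable def dm (K : Set (Fin n → ℝ)) : Measure ((Fin n → ℝ) × (Fin n → ℝ)) :=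
  (cm (pol K)).map Prod.swap

/-- the common part of the two measures -/
noncomputable def hm (K : Set (Fin n → ℝ)) : Measure ((Fin n → ℝ) × (Fin n → ℝ)) :=
  cm K ⊓ dm K

theorem cm_apply {K : Set (Fin n → ℝ)} (h : Body K) {Q : Set ((Fin n → ℝ) × (Fin n → ℝ))}
    (hQ : MeasurableSet Q) : cm K Q = volume (G K ⁻¹' Q ∩ K) := by
  rw [cm, Measure.map_apply (measurable_G h) hQ, Measure.restrict_apply (measurable_G h hQ)]

theorem dm_apply (K : Set (Fin n → ℝ)) {Q : Set ((Fin n → ℝ) × (Fin n → ℝ))}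
    (hQ : MeasurableSet Q) : dm K Q = cm (pol K) (Prod.swap ⁻¹' Q) := by
  rw [dm, Measure.map_apply measurable_swap hQ]

theorem isFinite_cm {K : Set (Fin n → ℝ)} (h : Body K) : IsFiniteMeasure (cm K) := by
  constructor
  rw [cm_apply h MeasurableSet.univ]
  exact (measure_mono inter_subset_right).trans_lt h.cpt.measure_lt_top

theorem isFinite_dm {K : Set (Fin n → ℝ)} (h : Body K) : IsFiniteMeasure (dm K) := by
  have := isFinite_cm h.pol
  exact Measure.isFiniteMeasure_map _ _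

theorem isFinite_hm {K : Set (Fin n → ℝ)} (h : Body K) : IsFiniteMeasure (hm K) := by
  have := isFinite_cm h
  exact isFiniteMeasure_of_le (cm K) inf_le_left

theorem cm_ae_nor {K : Set (Fin n → ℝ)} (h : Body K) (hn : 0 < n) : ∀ᵐ p ∂(cm K), p ∈ nor K := by
  refine (ae_map_iff (p := fun p => p ∈ nor K) (measurable_G h).aemeasurable
    (nor_isClosed h).measurableSet).mpr ?_
  exact ae_restrict_of_ae (h.ae_G_mem hn)

theorem dm_ae_nor {K : Set (Fin n → ℝ)} (h : Body K) (hn : 0 < n) : ∀ᵐ p ∂(dm K), p ∈ nor K := by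
  refine (ae_map_iff (p := fun p => p ∈ nor K) measurable_swap.aemeasurable
    (nor_isClosed h).measurableSet).mpr ?_
  filter_upwards [cm_ae_nor h.pol hn] with p hp
  exact (mem_nor_pol h p).mp hp

theorem hm_ae_nor {K : Set (Fin n → ℝ)} (h : Body K) (hn : 0 < n) : ∀ᵐ p ∂(hm K), p ∈ nor K :=
  (Measure.absolutelyContinuous_of_le (inf_le_left : hm K ≤ cm K)).ae_le (cm_ae_nor h hn)

/-- if `f ≤ g` with equality at `z`, the derivatives agree -/
theorem grad_eq_of_le {f g : (Fin n → ℝ) → ℝ} {z : Fin n → ℝ} (hf : DifferentiableAt ℝ f z)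
    (hg : DifferentiableAt ℝ g z) (hfg : ∀ x, f x ≤ g x) (hz : f z = g z) :
    grad f z = grad g z := by
  have h1 : IsLocalMin (fun x => g x - f x) z := by
    refine Eventually.of_forall fun x => ?_
    show g z - f z ≤ g x - f x
    rw [hz, sub_self]; linarith [hfg x]
  have h2 := h1.fderiv_eq_zero
  rw [fderiv_fun_sub hg hf, sub_eq_zero] at h2
  funext i
  simp only [grad, h2]

theorem grad_congr {f g : (Fin n → ℝ) → ℝ} {z : Fin n → ℝ} (h : f =ᶠ[𝓝 z] g) :
    grad f z = grad g z := by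
  funext i; simp only [grad, h.fderiv_eq]

/-- first exceptional part -/
def P1 (K L : Set (Fin n → ℝ)) : Set ((Fin n → ℝ) × (Fin n → ℝ)) :=
  {p | p ∈ nor K ∧ p ∉ nor L ∧ p.1 ∈ L}

def P4 (K L : Set (Fin n → ℝ)) : Set ((Fin n → ℝ) × (Fin n → ℝ)) :=
  {p | p ∈ nor L ∧ p ∉ nor K ∧ p.1 ∉ K}

theorem measurableSet_P1 {K L : Set (Fin n → ℝ)} (hK : Body K) (hL : Body L) :
    MeasurableSet (P1 K L) :=
  (nor_isClosed hK).measurableSet.inter ((nor_isClosed hL).measurableSet.compl.inter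
    (measurable_fst hL.cpt.measurableSet))

theorem measurableSet_P4 {K L : Set (Fin n → ℝ)} (hK : Body K) (hL : Body L) :
    MeasurableSet (P4 K L) :=
  (nor_isClosed hL).measurableSet.inter ((nor_isClosed hK).measurableSet.compl.inter
    (measurable_fst hK.cpt.measurableSet).compl)

theorem G_union_lt {K L : Set (Fin n → ℝ)} (hK : Body K) (hL : Body L) (hU : Convex ℝ (K ∪ L))
    {z : Fin n → ℝ} (h : gauge K z < gauge L z) : G (K ∪ L) z = G K z := by
  have h1 : gauge (K ∪ L) =ᶠ[𝓝 z] gauge K := by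
    filter_upwards [hK.continuous_gauge.continuousAt.eventually_lt
      hL.continuous_gauge.continuousAt h] with x hx
    rw [hK.gauge_union hL hU, min_eq_left hx.le]
  simp only [G, grad_congr h1, h1.eq_of_nhds]

theorem G_inter_lt {K L : Set (Fin n → ℝ)} (hK : Body K) (hL : Body L)
    {z : Fin n → ℝ} (h : gauge K z < gauge L z) : G (K ∩ L) z = G L z := by
  have h1 : gauge (K ∩ L) =ᶠ[𝓝 z] gauge L := by
    filter_upwards [hK.continuous_gauge.continuousAt.eventually_lt
      hL.continuous_gauge.continuousAt h] with x hx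
    rw [hK.gauge_inter hL, max_eq_right hx.le]
  simp only [G, grad_congr h1, h1.eq_of_nhds]

theorem G_eq_of_subset {K L : Set (Fin n → ℝ)} (h : ∀ x, gauge L x ≤ gauge K x)
    {z : Fin n → ℝ} (hz : gauge K z = gauge L z) (h1 : DifferentiableAt ℝ (gauge K) z)
    (h2 : DifferentiableAt ℝ (gauge L) z) : G K z = G L z := by
  simp only [G, hz, grad_eq_of_le h2 h1 h hz.symm]

theorem swap_union {K L : Set (Fin n → ℝ)} (hK : Body K) (hL : Body L) (hU : Convex ℝ (K ∪ L))
    {p : (Fin n → ℝ) × (Fin n → ℝ)} (hp : p ∈ nor K) : p.1 ∈ L ∨ p.2 ∈ pol L := by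
  by_contra hcon
  push Not at hcon
  obtain ⟨h1, h2⟩ := hcon
  simp only [pol, mem_ofPred_eq, not_forall, not_le] at h2
  obtain ⟨b, hb, hb1⟩ := h2
  obtain ⟨z, ⟨s, t, hs, ht, hst, rfl⟩, hzK, hzL⟩ := exists_common hK hL hU hp.1 hb
  have h3 := hp.2.1 _ hzK
  rw [add_dotProduct, smul_dotProduct, smul_dotProduct, smul_eq_mul, smul_eq_mul, hp.2.2] at h3
  have h4 : t = 0 := by
    rcases ht.lt_or_eq with h | h
    · nlinarith
    · exact h.symm
  subst h4
  simp at hst
  subst hst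
  apply h1
  simpa using hzL

theorem ae_cm_cases {K L : Set (Fin n → ℝ)} (hK : Body K) (hL : Body L) (hU : Convex ℝ (K ∪ L))
    (hn : 0 < n) : ∀ᵐ z : Fin n → ℝ,
      (gauge K z < gauge L z ∧ G (K ∪ L) z = G K z ∧ G (K ∩ L) z = G L z) ∨
      (gauge L z < gauge K z ∧ G (K ∪ L) z = G L z ∧ G (K ∩ L) z = G K z ∧
        G L z ∈ P4 K L ∧ G K z ∈ P1 K L) ∨
      (gauge L z = gauge K z ∧ G (K ∪ L) z = G K z ∧ G (K ∩ L) z = G L z) := by
  filter_upwards [hK.ae_diff, hL.ae_diff, (hK.inter hL).ae_diff, (hK.union hL hU).ae_diff,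
    ae_ne_zero hn] with z dK dL dI dU h0
  rcases lt_trichotomy (gauge K z) (gauge L z) with h | h | h
  · exact Or.inl ⟨h, G_union_lt hK hL hU h, G_inter_lt hK hL h⟩
  · refine Or.inr (Or.inr ⟨h.symm, ?_, ?_⟩)
    · refine (G_eq_of_subset (fun x => ?_) ?_ dK dU).symm
      · rw [hK.gauge_union hL hU]; exact min_le_left _ _
      · rw [hK.gauge_union hL hU, h, min_self]
    · refine G_eq_of_subset (fun x => ?_) ?_ dI dL
      · rw [hK.gauge_inter hL]; exact le_max_right _ _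
      · rw [hK.gauge_inter hL, h, max_self]
  · refine Or.inr (Or.inl ⟨h, ?_, ?_, ⟨hL.G_mem h0 dL, ?_, ?_⟩, hK.G_mem h0 dK, ?_, ?_⟩)
    · have := G_union_lt hL hK (by rwa [union_comm]) h
      rwa [union_comm] at this
    · have := G_inter_lt hL hK h
      rwa [inter_comm] at this
    · intro hcon
      have h1 := (hK.gauge_le_one _).mpr hcon.1
      simp only [G] at h1
      rw [Body.gauge_smul (inv_nonneg.mpr (gauge_nonneg _)), inv_mul_le_iff₀ (hL.gauge_pos h0)]
        at h1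
      linarith
    · intro hcon
      have h1 := (hK.gauge_le_one _).mpr hcon
      simp only [G] at h1
      rw [Body.gauge_smul (inv_nonneg.mpr (gauge_nonneg _)), inv_mul_le_iff₀ (hL.gauge_pos h0)]
        at h1
      linarith
    · intro hcon
      have h1 := hL.dot_le (G K z).1 (G K z).2
      rw [hcon.2.2] at h1
      have h2 := (hL.pol.gauge_le_one _).mpr hcon.2.1
      have h3 : gauge L (G K z).1 < 1 := by
        simp only [G]
        rw [Body.gauge_smul (inv_nonneg.mpr (gauge_nonneg _)), inv_mul_lt_iff₀ (hK.gauge_pos h0)]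
        linarith
      nlinarith [gauge_nonneg (s := L) (G K z).1, gauge_nonneg (s := pol L) (G K z).2]
    · rw [← hL.gauge_le_one]
      simp only [G]
      rw [Body.gauge_smul (inv_nonneg.mpr (gauge_nonneg _)), inv_mul_le_iff₀ (hK.gauge_pos h0)]
      linarith

theorem cm_local {K L : Set (Fin n → ℝ)} (hK : Body K) (hL : Body L) (hU : Convex ℝ (K ∪ L))
    (hn : 0 < n) {Q : Set ((Fin n → ℝ) × (Fin n → ℝ))} (hQ : MeasurableSet Q)
    (hQE : Disjoint Q (P1 K L ∪ P4 K L)) :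
    cm (K ∪ L) Q = cm K Q ∧ cm (K ∩ L) Q = cm L Q := by
  have hE : ∀ p, p ∈ P1 K L ∨ p ∈ P4 K L → p ∉ Q := by
    intro p hp hpQ
    exact hQE.notMem_of_mem_left hpQ hp
  constructor
  · rw [cm_apply (hK.union hL hU) hQ, cm_apply hK hQ]
    refine measure_congr ?_
    rw [eventuallyEq_set]
    filter_upwards [ae_cm_cases hK hL hU hn] with z hz
    simp only [mem_inter_iff, mem_preimage]
    rcases hz with ⟨h, h1, -⟩ | ⟨h, h1, -, h2, h3⟩ | ⟨h, h1, -⟩
    · rw [h1, ← (hK.union hL hU).gauge_le_one, hK.gauge_union hL hU, min_eq_left h.le,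
        hK.gauge_le_one]
    · rw [h1]
      constructor
      · rintro ⟨h4, -⟩; exact absurd h4 (hE _ (Or.inr h2))
      · rintro ⟨h4, -⟩; exact absurd h4 (hE _ (Or.inl h3))
    · rw [h1, ← (hK.union hL hU).gauge_le_one, hK.gauge_union hL hU, h, min_self,
        hK.gauge_le_one]
  · rw [cm_apply (hK.inter hL) hQ, cm_apply hL hQ]
    refine measure_congr ?_
    rw [eventuallyEq_set]
    filter_upwards [ae_cm_cases hK hL hU hn] with z hz
    simp only [mem_inter_iff, mem_preimage]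
    rcases hz with ⟨h, -, h1⟩ | ⟨h, -, h1, h2, h3⟩ | ⟨h, -, h1⟩
    · rw [h1, ← hK.gauge_le_one, ← hL.gauge_le_one]
      constructor
      · rintro ⟨h4, -, h5⟩; exact ⟨h4, h5⟩
      · rintro ⟨h4, h5⟩; exact ⟨h4, by linarith, h5⟩
    · rw [h1]
      constructor
      · rintro ⟨h4, -⟩; exact absurd h4 (hE _ (Or.inl h3))
      · rintro ⟨h4, -⟩; exact absurd h4 (hE _ (Or.inr h2))
    · rw [h1, ← hK.gauge_le_one, ← hL.gauge_le_one, h]
      tauto

theorem dm_local {K L : Set (Fin n → ℝ)} (hK : Body K) (hL : Body L) (hU : Convex ℝ (K ∪ L))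
    (hn : 0 < n) {Q : Set ((Fin n → ℝ) × (Fin n → ℝ))} (hQ : MeasurableSet Q)
    (hQE : Disjoint Q (P1 K L ∪ P4 K L)) :
    dm (K ∪ L) Q = dm K Q ∧ dm (K ∩ L) Q = dm L Q := by
  have hU' : Convex ℝ (pol L ∪ pol K) := by
    rw [union_comm, ← pol_inter hK hL hU]; exact pol_convex _
  have hdis : Disjoint (Prod.swap ⁻¹' Q) (P1 (pol L) (pol K) ∪ P4 (pol L) (pol K)) := by
    rw [Set.disjoint_left]
    rintro p hp (⟨h1, h2, h3⟩ | ⟨h1, h2, h3⟩)
    · refine hQE.notMem_of_mem_left hp (Or.inr ?_)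
      rw [mem_nor_pol hL] at h1
      rw [mem_nor_pol hK] at h2
      refine ⟨h1, h2, fun hcon => h2 ⟨hcon, h3, h1.2.2⟩⟩
    · refine hQE.notMem_of_mem_left hp (Or.inl ?_)
      rw [mem_nor_pol hK] at h1
      rw [mem_nor_pol hL] at h2
      refine ⟨h1, h2, ?_⟩
      rcases swap_union hK hL hU h1 with h | h
      · exact h
      · exact absurd h h3
  obtain ⟨h1, h2⟩ := cm_local hL.pol hK.pol hU' hn (measurable_swap hQ) hdis
  rw [dm_apply _ hQ, dm_apply _ hQ, dm_apply _ hQ, dm_apply _ hQ, pol_union, pol_inter hK hL hU,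
    inter_comm, union_comm]
  exact ⟨h2, h1⟩

theorem inf_congr_apply {α : Type*} [MeasurableSpace α] {μ₁ μ₂ ν₁ ν₂ : Measure α} {Q : Set α}
    (hQ : MeasurableSet Q) (h1 : ∀ s, MeasurableSet s → s ⊆ Q → μ₁ s = μ₂ s)
    (h2 : ∀ s, MeasurableSet s → s ⊆ Q → ν₁ s = ν₂ s) : (μ₁ ⊓ ν₁) Q = (μ₂ ⊓ ν₂) Q := by
  have e1 : μ₁.restrict Q = μ₂.restrict Q := by
    ext s hs
    rw [Measure.restrict_apply hs, Measure.restrict_apply hs]
    exact h1 _ (hs.inter hQ) inter_subset_right
  have e2 : ν₁.restrict Q = ν₂.restrict Q := by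
    ext s hs
    rw [Measure.restrict_apply hs, Measure.restrict_apply hs]
    exact h2 _ (hs.inter hQ) inter_subset_right
  rw [Measure.inf_apply hQ, Measure.inf_apply hQ]
  simp_rw [← Measure.restrict_apply' hQ, e1, e2]

/-- the measure-valued valuation property -/
theorem hm_valuation {K L : Set (Fin n → ℝ)} (hK : Body K) (hL : Body L)
    (hU : Convex ℝ (K ∪ L)) (hn : 0 < n) : hm (K ∪ L) + hm (K ∩ L) = hm K + hm L := by
  have key : ∀ {K L : Set (Fin n → ℝ)}, Body K → Body L → Convex ℝ (K ∪ L) →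
      ∀ Q, MeasurableSet Q → Disjoint Q (P1 K L ∪ P4 K L) →
      hm (K ∪ L) Q = hm K Q ∧ hm (K ∩ L) Q = hm L Q := by
    intro K L hK hL hU Q hQ hd
    constructor
    · refine inf_congr_apply hQ (fun s hs hsQ => ?_) (fun s hs hsQ => ?_)
      · exact (cm_local hK hL hU hn hs (hd.mono_left hsQ)).1
      · exact (dm_local hK hL hU hn hs (hd.mono_left hsQ)).1
    · refine inf_congr_apply hQ (fun s hs hsQ => ?_) (fun s hs hsQ => ?_)
      · exact (cm_local hK hL hU hn hs (hd.mono_left hsQ)).2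
      · exact (dm_local hK hL hU hn hs (hd.mono_left hsQ)).2
  ext s hs
  set E := P1 K L ∪ P4 K L with hE
  have hEm : MeasurableSet E := (measurableSet_P1 hK hL).union (measurableSet_P4 hK hL)
  have hd1 : Disjoint (s \ E) (P1 K L ∪ P4 K L) := disjoint_sdiff_left
  have hd2 : Disjoint (s ∩ E) (P1 L K ∪ P4 L K) := by
    rw [Set.disjoint_left]
    rintro p ⟨-, hp⟩ hp'
    rcases hp with ⟨h1, h2, h3⟩ | ⟨h1, h2, h3⟩ <;> rcases hp' with ⟨h4, h5, h6⟩ | ⟨h4, h5, h6⟩
    · exact h2 h4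
    · exact h6 h3
    · exact h3 h6
    · exact h2 h4
  obtain ⟨a1, a2⟩ := key hK hL hU (s \ E) (hs.diff hEm) hd1
  obtain ⟨b1, b2⟩ := key hL hK (by rwa [union_comm]) (s ∩ E) (hs.inter hEm) hd2
  rw [union_comm] at b1
  rw [inter_comm] at b2
  rw [Measure.add_apply, Measure.add_apply, ← measure_inter_add_sdiff s hEm,
    ← measure_inter_add_sdiff s hEm, ← measure_inter_add_sdiff (μ := hm K) s hEm,
    ← measure_inter_add_sdiff (μ := hm L) s hEm, a1, a2, b1, b2]
  ring

end Pool.Agent.H821R3
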