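import Pool.Agent.H821R3.Conv

set_option autoImplicit false
open scoped Pointwise Matrix
open Filter Topology MeasureTheory Set

namespace Pool.Agent.H821R3

section Supp

variable {W : Type*} [NormedAddCommGroup W] [NormedSpace ℝ W] [FiniteDimensional ℝ W]
variable {Ω : Type*} [MeasurableSpace Ω]

/-- the set with given support function -/
def suppSet (h : (W →L[ℝ] ℝ) → ℝ) : Set W := {x | ∀ l : W →L[ℝ] ℝ, l x ≤ h l}

/-- cosine transform -/
noncomputable def cosT (μ : Measure Ω) (v : Ω → W) (l : W →L[ℝ] ℝ) : ℝ := ∫ ω, |l (v ω)| ∂μ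

omit [FiniteDimensional ℝ W] in
theorem suppSet_isClosed (h : (W →L[ℝ] ℝ) → ℝ) : IsClosed (suppSet h) := by
  have : suppSet h = ⋂ l : W →L[ℝ] ℝ, {x | l x ≤ h l} := by ext x; simp [suppSet]
  rw [this]
  exact isClosed_iInter fun l => isClosed_le l.continuous continuous_const

omit [FiniteDimensional ℝ W] in
theorem suppSet_convex (h : (W →L[ℝ] ℝ) → ℝ) : Convex ℝ (suppSet h) := by
  intro x hx y hy a b ha hb hab l
  rw [map_add, map_smul, map_smul, smul_eq_mul, smul_eq_mul]
  calc a * l x + b * l y ≤ a * h l + b * h l := by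
        gcongr
        · exact hx l
        · exact hy l
    _ = h l := by rw [← add_mul, hab, one_mul]

omit [FiniteDimensional ℝ W] in
theorem suppSet_bounded {h : (W →L[ℝ] ℝ) → ℝ} {C : ℝ} (hC0 : 0 ≤ C) (hC : ∀ l, h l ≤ C * ‖l‖) :
    ∀ x ∈ suppSet h, ‖x‖ ≤ C := by
  intro x hx
  obtain ⟨g, hg, hgx⟩ := exists_dual_vector'' ℝ x
  have h1 := (hx g).trans (hC g)
  rw [hgx] at h1
  simp only [RCLike.ofReal_real_eq_id, id_eq] at h1
  nlinarith [norm_nonneg g]

theorem suppSet_compact {h : (W →L[ℝ] ℝ) → ℝ} {C : ℝ} (hC0 : 0 ≤ C) (hC : ∀ l, h l ≤ C * ‖l‖) :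
    IsCompact (suppSet h) := by
  have : ProperSpace W := FiniteDimensional.proper ℝ W
  refine Metric.isCompact_of_isClosed_isBounded (suppSet_isClosed h) ?_
  refine (Metric.isBounded_closedBall (x := (0:W)) (r := C)).subset ?_
  intro x hx
  rw [mem_closedBall_zero_iff]
  exact suppSet_bounded hC0 hC x hx

omit [FiniteDimensional ℝ W] in
theorem integrable_abs_comp {μ : Measure Ω} {v : Ω → W} (hv : Integrable v μ) (l : W →L[ℝ] ℝ) :
    Integrable (fun ω => |l (v ω)|) μ := (l.integrable_comp hv).abs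

omit [FiniteDimensional ℝ W] in
theorem cosT_nonneg (μ : Measure Ω) (v : Ω → W) (l : W →L[ℝ] ℝ) : 0 ≤ cosT μ v l :=
  integral_nonneg fun _ => abs_nonneg _

omit [FiniteDimensional ℝ W] in
theorem cosT_le {μ : Measure Ω} {v : Ω → W} (hv : Integrable v μ) (l : W →L[ℝ] ℝ) :
    cosT μ v l ≤ (∫ ω, ‖v ω‖ ∂μ) * ‖l‖ := by
  rw [← integral_mul_const]
  refine integral_mono (integrable_abs_comp hv l) (hv.norm.mul_const _) fun ω => ?_
  show |l (v ω)| ≤ ‖v ω‖ * ‖l‖
  rw [mul_comm]
  exact l.le_opNorm (v ω)

omit [FiniteDimensional ℝ W] in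
theorem cosT_attained [CompleteSpace W] {μ : Measure Ω} {v : Ω → W} (hv : Integrable v μ)
    (l : W →L[ℝ] ℝ) : ∃ b ∈ suppSet (cosT μ v), cosT μ v l ≤ l b := by
  set s : Ω → ℝ := fun ω => if 0 ≤ l (v ω) then 1 else -1 with hs
  have hsm : AEStronglyMeasurable s μ := by
    have h1 : AEMeasurable (fun ω => l (v ω)) μ := (l.integrable_comp hv).aemeasurable
    have h2 : Measurable (fun t : ℝ => if 0 ≤ t then (1 : ℝ) else -1) :=
      Measurable.ite measurableSet_Ici measurable_const measurable_const
    exact (h2.comp_aemeasurable h1).aestronglyMeasurable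
  have hs1 : ∀ ω, ‖s ω‖ ≤ 1 := by
    intro ω; simp only [hs]; split_ifs <;> simp
  have hint : Integrable (fun ω => s ω • v ω) μ := by
    refine hv.mono (hsm.smul hv.aestronglyMeasurable) (Eventually.of_forall fun ω => ?_)
    rw [norm_smul]
    calc ‖s ω‖ * ‖v ω‖ ≤ 1 * ‖v ω‖ := by gcongr; exact hs1 ω
      _ = _ := one_mul _
  have hinner : ∀ w : W →L[ℝ] ℝ, w (∫ ω, s ω • v ω ∂μ) = ∫ ω, s ω * w (v ω) ∂μ := by
    intro w
    rw [← w.integral_comp_comm hint]
    simp only [map_smul, smul_eq_mul]
  refine ⟨∫ ω, s ω • v ω ∂μ, ?_, ?_⟩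
  · intro w
    rw [hinner]
    have hi2 : Integrable (fun ω => s ω * w (v ω)) μ := by
      have := w.integrable_comp hint
      simpa only [map_smul, smul_eq_mul] using this
    refine integral_mono hi2 (integrable_abs_comp hv w) fun ω => ?_
    show s ω * w (v ω) ≤ |w (v ω)|
    calc s ω * w (v ω) ≤ |s ω * w (v ω)| := le_abs_self _
      _ = |s ω| * |w (v ω)| := abs_mul _ _
      _ ≤ 1 * |w (v ω)| := by gcongr; exact hs1 ω
      _ = _ := one_mul _
  · rw [hinner]
    refine le_of_eq (integral_congr_ae (Eventually.of_forall fun ω => ?_))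
    show |l (v ω)| = s ω * l (v ω)
    simp only [hs]
    split_ifs with h
    · rw [abs_of_nonneg h, one_mul]
    · push Not at h
      rw [abs_of_neg h]; ring

theorem suppSet_add {μ ν : Measure Ω} {v : Ω → W} (hμ : Integrable v μ) (hν : Integrable v ν) :
    suppSet (cosT μ v) + suppSet (cosT ν v) = suppSet (cosT (μ + ν) v) := by
  have : CompleteSpace W := FiniteDimensional.complete ℝ W
  have hadd : ∀ l, cosT (μ + ν) v l = cosT μ v l + cosT ν v l := fun l =>
    integral_add_measure (integrable_abs_comp hμ l) (integrable_abs_comp hν l)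
  refine Subset.antisymm ?_ ?_
  · rintro _ ⟨x, hx, y, hy, rfl⟩ l
    rw [hadd, map_add]
    exact add_le_add (hx l) (hy l)
  · intro x hx
    by_contra hcon
    have hc1 : IsCompact (suppSet (cosT μ v)) :=
      suppSet_compact (integral_nonneg fun _ => norm_nonneg _) (cosT_le hμ)
    have hc2 : IsCompact (suppSet (cosT ν v)) :=
      suppSet_compact (integral_nonneg fun _ => norm_nonneg _) (cosT_le hν)
    obtain ⟨f, u, hfu, hux⟩ := geometric_hahn_banach_closed_point
      ((suppSet_convex _).add (suppSet_convex _)) (hc1.add hc2).isClosed hcon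
    obtain ⟨a, ha, ha'⟩ := cosT_attained hμ f
    obtain ⟨b, hb, hb'⟩ := cosT_attained hν f
    have h1 := hfu _ ⟨a, ha, b, hb, rfl⟩
    rw [map_add] at h1
    have h2 := hx f
    rw [hadd] at h2
    linarith

end Supp

/-- approximation of measurable sets by continuous functions -/
theorem exists_cont_approx {X : Type*} [TopologicalSpace X] [MeasurableSpace X] [BorelSpace X]
    [NormalSpace X] (m : Measure X) [IsFiniteMeasure m] [m.WeaklyRegular] {s : Set X}
    (hs : MeasurableSet s) {δ : ℝ} (hδ : 0 < δ) :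
    ∃ η : X → ℝ, Continuous η ∧ (∀ x, 0 ≤ η x ∧ η x ≤ 1) ∧
      ∫ x, |η x - s.indicator (fun _ => (1:ℝ)) x| ∂m ≤ δ := by
  have hmem : MemLp (s.indicator fun _ => (1:ℝ)) 1 m :=
    (memLp_indicator_const 1 hs (1:ℝ) (Or.inr (measure_ne_top m s)))
  obtain ⟨g, hg, hg1⟩ := hmem.exists_boundedContinuous_eLpNorm_sub_le ENNReal.one_ne_top
    (ε := ENNReal.ofReal δ) (by simpa using hδ)
  refine ⟨fun x => max 0 (min 1 (g x)), by fun_prop, fun x => ⟨le_max_left _ _,
    max_le zero_le_one (min_le_left _ _)⟩, ?_⟩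
  have hint : Integrable (fun x => s.indicator (fun _ => (1:ℝ)) x - g x) m :=
    (memLp_one_iff_integrable.mp (hmem.sub hg1))
  have h1 : ∫ x, |s.indicator (fun _ => (1:ℝ)) x - g x| ∂m ≤ δ := by
    have := ENNReal.toReal_mono ENNReal.ofReal_ne_top hg
    rw [ENNReal.toReal_ofReal hδ.le, eLpNorm_one_eq_lintegral_enorm] at this
    have h2 := integral_norm_eq_lintegral_enorm hint.aestronglyMeasurable
    simp only [Real.norm_eq_abs] at h2
    rw [h2]
    exact this
  refine le_trans (integral_mono_of_nonneg (Eventually.of_forall fun _ => abs_nonneg _)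
    hint.abs (Eventually.of_forall fun x => ?_)) h1
  show |max 0 (min 1 (g x)) - s.indicator (fun _ => (1:ℝ)) x| ≤
    |s.indicator (fun _ => (1:ℝ)) x - g x|
  by_cases hx : x ∈ s
  · rw [indicator_of_mem hx]
    rcases le_total 1 (g x) with h | h
    · rw [min_eq_left h]; simp
    · rw [min_eq_right h]
      rcases le_total 0 (g x) with h' | h'
      · rw [max_eq_right h', abs_sub_comm]
      · rw [max_eq_left h', abs_of_nonneg (by linarith : 0 ≤ 1 - g x)]
        simp; linarith
  · rw [indicator_of_notMem hx]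
    rcases le_total 1 (g x) with h | h
    · rw [min_eq_left h, abs_of_nonpos (by linarith : 0 - g x ≤ 0)]
      simp; linarith
    · rw [min_eq_right h]
      rcases le_total 0 (g x) with h' | h'
      · rw [max_eq_right h', abs_sub_comm]
      · rw [max_eq_left h']; simp

variable {n : ℕ}

theorem integrable_of_continuous {E : Type*} [NormedAddCommGroup E]
    [SecondCountableTopology E]
    {K : Set (Fin n → ℝ)} (h : Body K)
    {m : Measure ((Fin n → ℝ) × (Fin n → ℝ))} [IsFiniteMeasure m] (hm : ∀ᵐ p ∂m, p ∈ nor K)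
    {F : (Fin n → ℝ) × (Fin n → ℝ) → E} (hF : Continuous F) : Integrable F m := by
  obtain ⟨C, hC⟩ := (nor_isCompact h).exists_bound_of_continuousOn hF.continuousOn
  refine Integrable.of_bound hF.aestronglyMeasurable C ?_
  filter_upwards [hm] with p hp using hC p hp

/-- upper semicontinuity of integrals against `hm` -/
theorem usc_integral {Ks : ℕ → Set (Fin n → ℝ)} {K : Set (Fin n → ℝ)}
    (hKs : ∀ j, Body (Ks j)) (hK : Body K) (hn : 0 < n)
    (h : GConv Ks K) {F : (Fin n → ℝ) × (Fin n → ℝ) → ℝ} (hF : Continuous F)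
    (hF0 : ∀ p, 0 ≤ F p) {b : ℝ} (hb : ∫ p, F p ∂(hm K) < b) :
    ∀ᶠ j in atTop, ∫ p, F p ∂(hm (Ks j)) < b := by
  have i1 := isFinite_cm hK
  have i2 := isFinite_dm hK
  have i3 := isFinite_hm hK
  obtain ⟨C, hC⟩ := (nor_isCompact hK).exists_bound_of_continuousOn hF.continuousOn
  set C' := max C 0 + 1 with hC'
  have hC'0 : 0 < C' := by positivity
  set δ := (b - ∫ p, F p ∂(hm K)) / (2 * C') with hδ
  have hδ0 : 0 < δ := by
    have : 0 < b - ∫ p, F p ∂(hm K) := by linarith
    positivity
  obtain ⟨s, hs, hs1, hs2⟩ := hahn_decomposition (cm K) (dm K)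
  -- on `s`, `dm ≤ cm`; on `sᶜ`, `cm ≤ dm`
  obtain ⟨η, hη, hη01, hηs⟩ := exists_cont_approx (cm K + dm K) hs hδ0
  -- the value of the inf
  have hinf : (dm K).restrict s + (cm K).restrict sᶜ ≤ hm K := by
    refine le_inf ?_ ?_
    · rw [Measure.le_iff]
      intro t ht
      rw [Measure.add_apply, Measure.restrict_apply ht, Measure.restrict_apply ht]
      calc dm K (t ∩ s) + cm K (t ∩ sᶜ) ≤ cm K (t ∩ s) + cm K (t ∩ sᶜ) :=
            add_le_add_left (hs1 _ (ht.inter hs) inter_subset_right) _
        _ = cm K t := by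
            rw [← Set.sdiff_eq, measure_inter_add_sdiff _ hs]
    · rw [Measure.le_iff]
      intro t ht
      rw [Measure.add_apply, Measure.restrict_apply ht, Measure.restrict_apply ht]
      calc dm K (t ∩ s) + cm K (t ∩ sᶜ) ≤ dm K (t ∩ s) + dm K (t ∩ sᶜ) :=
            add_le_add_right (hs2 _ (ht.inter hs.compl) inter_subset_right) _
        _ = dm K t := by
            rw [← Set.sdiff_eq, measure_inter_add_sdiff _ hs]
  have intc : Integrable F (cm K) := integrable_of_continuous hK (cm_ae_nor hK hn) hF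
  have intd : Integrable F (dm K) := integrable_of_continuous hK (dm_ae_nor hK hn) hF
  have inth : Integrable F (hm K) := integrable_of_continuous hK (hm_ae_nor hK hn) hF
  have e1 : ∫ p in s, F p ∂(dm K) + ∫ p in sᶜ, F p ∂(cm K) ≤ ∫ p, F p ∂(hm K) := by
    rw [← integral_add_measure intd.restrict intc.restrict]
    exact integral_mono_measure hinf (Eventually.of_forall hF0) inth
  have hFη : Continuous fun p => F p * η p := hF.mul hη
  have hFη' : Continuous fun p => F p * (1 - η p) := hF.mul (continuous_const.sub hη)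
  have e2 : ∫ p, F p * η p ∂(dm K) + ∫ p, F p * (1 - η p) ∂(cm K) < b := by
    have hCF : ∀ p ∈ nor K, F p ≤ C' := fun p hp => by
      have h1 := hC p hp
      rw [Real.norm_of_nonneg (hF0 p)] at h1
      rw [hC']
      linarith [le_max_left C 0]
    have intη : ∀ (m : Measure ((Fin n → ℝ) × (Fin n → ℝ))) [IsFiniteMeasure m],
        Integrable (fun p => |η p - s.indicator (fun _ => (1:ℝ)) p|) m := by
      intro m _
      refine Integrable.of_bound (C := 1) ?_ (Eventually.of_forall fun p => ?_)
      · exact ((hη.measurable.sub (measurable_const.indicator hs)).abs).aestronglyMeasurable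
      · rw [Real.norm_eq_abs, abs_abs, abs_le]
        have := hη01 p
        by_cases hp : p ∈ s
        · rw [indicator_of_mem hp]; constructor <;> linarith
        · rw [indicator_of_notMem hp]; constructor <;> linarith
    have a1 : ∫ p, F p * η p ∂(dm K) ≤ ∫ p in s, F p ∂(dm K) +
        C' * ∫ p, |η p - s.indicator (fun _ => (1:ℝ)) p| ∂(dm K) := by
      rw [← integral_indicator hs, ← integral_const_mul,
        ← integral_add (intd.indicator hs) ((intη _).const_mul _)]
      refine integral_mono_ae (integrable_of_continuous hK (dm_ae_nor hK hn) hFη)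
        ((intd.indicator hs).add ((intη _).const_mul _)) ?_
      filter_upwards [dm_ae_nor hK hn] with p hp
      have h1 := hCF p hp
      have h2 := hF0 p
      by_cases hps : p ∈ s
      · simp only [indicator_of_mem hps]
        have h3 := neg_abs_le (η p - 1)
        have h4 := (hη01 p).2
        have h5 := abs_nonneg (η p - 1)
        nlinarith
      · simp only [indicator_of_notMem hps, sub_zero, zero_add]
        rw [abs_of_nonneg (hη01 p).1]
        exact mul_le_mul_of_nonneg_right h1 (hη01 p).1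
    have a2 : ∫ p, F p * (1 - η p) ∂(cm K) ≤ ∫ p in sᶜ, F p ∂(cm K) +
        C' * ∫ p, |η p - s.indicator (fun _ => (1:ℝ)) p| ∂(cm K) := by
      rw [← integral_indicator hs.compl, ← integral_const_mul,
        ← integral_add (intc.indicator hs.compl) ((intη _).const_mul _)]
      refine integral_mono_ae (integrable_of_continuous hK (cm_ae_nor hK hn) hFη')
        ((intc.indicator hs.compl).add ((intη _).const_mul _)) ?_
      filter_upwards [cm_ae_nor hK hn] with p hp
      have h1 := hCF p hp
      have h2 := hF0 p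
      by_cases hps : p ∈ s
      · simp only [indicator_of_mem hps, indicator_of_notMem (Set.notMem_compl_iff.mpr hps),
          zero_add]
        rw [abs_of_nonpos (by linarith [(hη01 p).2] : η p - 1 ≤ 0), neg_sub]
        exact mul_le_mul_of_nonneg_right h1 (by linarith [(hη01 p).2])
      · simp only [indicator_of_notMem hps, indicator_of_mem (Set.mem_compl hps), sub_zero]
        rw [abs_of_nonneg (hη01 p).1]
        have h3 := (hη01 p).1
        have h4 := mul_nonneg h2 h3
        have h5 := mul_nonneg hC'0.le h3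
        linarith
    have a3 : ∫ p, |η p - s.indicator (fun _ => (1:ℝ)) p| ∂(cm K) +
        ∫ p, |η p - s.indicator (fun _ => (1:ℝ)) p| ∂(dm K) ≤ δ := by
      rw [← integral_add_measure (intη _) (intη _)]
      exact hηs
    have a4 : C' * δ = (b - ∫ p, F p ∂(hm K)) / 2 := by rw [hδ]; field_simp
    nlinarith
  have t1 := tendsto_integral_dm hKs hK hn h hFη
  have t2 := tendsto_integral_cm hKs hK hn h hFη'
  filter_upwards [(t1.add t2).eventually (gt_mem_nhds e2)] with j hj
  refine lt_of_le_of_lt ?_ hj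
  have := isFinite_cm (hKs j)
  have := isFinite_dm (hKs j)
  have := isFinite_hm (hKs j)
  have b1 : ∫ p, F p * η p ∂(hm (Ks j)) ≤ ∫ p, F p * η p ∂(dm (Ks j)) :=
    integral_mono_measure inf_le_right
      (Eventually.of_forall fun p => mul_nonneg (hF0 p) (hη01 p).1)
      (integrable_of_continuous (hKs j) (dm_ae_nor (hKs j) hn) hFη)
  have b2 : ∫ p, F p * (1 - η p) ∂(hm (Ks j)) ≤ ∫ p, F p * (1 - η p) ∂(cm (Ks j)) :=
    integral_mono_measure inf_le_left
      (Eventually.of_forall fun p => mul_nonneg (hF0 p) (by linarith [(hη01 p).2]))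
      (integrable_of_continuous (hKs j) (cm_ae_nor (hKs j) hn) hFη')
  have b3 : ∫ p, F p ∂(hm (Ks j)) =
      ∫ p, F p * η p ∂(hm (Ks j)) + ∫ p, F p * (1 - η p) ∂(hm (Ks j)) := by
    rw [← integral_add (integrable_of_continuous (hKs j) (hm_ae_nor (hKs j) hn) hFη)
      (integrable_of_continuous (hKs j) (hm_ae_nor (hKs j) hn) hFη')]
    congr 1
    funext p; ring
  linarith

end Pool.Agent.H821R3
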