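import Pool.Agent.H821R3.Supp

set_option autoImplicit false
open scoped Pointwise Matrix
open Filter Topology MeasureTheory Set

namespace Pool.Agent.H821R3

variable {n : ℕ}

section Val

variable {W : Type*} [NormedAddCommGroup W] [NormedSpace ℝ W] [FiniteDimensional ℝ W]

/-- the Minkowski valuation attached to a continuous map on pairs -/
noncomputable def Phi (v : (Fin n → ℝ) × (Fin n → ℝ) → W) (K : Set (Fin n → ℝ)) : Set W :=
  suppSet (cosT (hm K) v)

theorem integrable_hm {K : Set (Fin n → ℝ)} (h : Body K) (hn : 0 < n)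
    {v : (Fin n → ℝ) × (Fin n → ℝ) → W} (hv : Continuous v) : Integrable v (hm K) := by
  have := isFinite_hm h
  have : ProperSpace W := FiniteDimensional.proper ℝ W
  exact integrable_of_continuous h (hm_ae_nor h hn) hv

theorem Phi_body {K : Set (Fin n → ℝ)} (h : Body K) (hn : 0 < n)
    {v : (Fin n → ℝ) × (Fin n → ℝ) → W} (hv : Continuous v) :
    (Phi v K).Nonempty ∧ IsCompact (Phi v K) ∧ Convex ℝ (Phi v K) := by
  refine ⟨⟨0, fun l => ?_⟩, ?_, suppSet_convex _⟩
  · rw [map_zero]; exact cosT_nonneg _ _ _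
  · exact suppSet_compact (integral_nonneg fun _ => norm_nonneg _) (cosT_le (integrable_hm h hn hv))

theorem Phi_valuation {K L : Set (Fin n → ℝ)} (hK : Body K) (hL : Body L)
    (hU : Convex ℝ (K ∪ L)) (hn : 0 < n) {v : (Fin n → ℝ) × (Fin n → ℝ) → W}
    (hv : Continuous v) : Phi v (K ∪ L) + Phi v (K ∩ L) = Phi v K + Phi v L := by
  unfold Phi
  rw [suppSet_add (integrable_hm (hK.union hL hU) hn hv) (integrable_hm (hK.inter hL) hn hv),
    suppSet_add (integrable_hm hK hn hv) (integrable_hm hL hn hv), hm_valuation hK hL hU hn]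

omit [FiniteDimensional ℝ W] in
theorem Phi_equivariant {K : Set (Fin n → ℝ)} (h : Body K) (T S : Matrix (Fin n) (Fin n) ℝ)
    (h1 : T * S = 1) (h2 : S * T = 1) (hdet : |T.det| = 1)
    {v : (Fin n → ℝ) × (Fin n → ℝ) → W} (hv : Continuous v) (R : W ≃L[ℝ] W)
    (hR : ∀ p, v (T *ᵥ p.1, Sᵀ *ᵥ p.2) = R (v p)) :
    Phi v (T.mulVec '' K) = R '' Phi v K := by
  have key : ∀ l : W →L[ℝ] ℝ, cosT (hm (T.mulVec '' K)) v l =
      cosT (hm K) v (l.comp (R : W →L[ℝ] W)) := by
    intro l
    have hc : Continuous fun p => |l (v p)| := (l.continuous.comp hv).abs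
    unfold cosT
    rw [hm_image h T S h1 h2 hdet, integral_map (MeasurableEquiv.measurable _).aemeasurable
      hc.aestronglyMeasurable]
    refine integral_congr_ae (Eventually.of_forall fun p => ?_)
    simp only [act_apply, hR]
    rfl
  ext w
  constructor
  · intro hw
    refine ⟨R.symm w, fun l => ?_, by simp⟩
    have := hw (l.comp (R.symm : W →L[ℝ] W))
    rw [key] at this
    have e : (l.comp (R.symm : W →L[ℝ] W)).comp (R : W →L[ℝ] W) = l := by
      ext x; simp
    rw [e] at this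
    exact this
  · rintro ⟨w, hw, rfl⟩ l
    rw [key]
    exact hw (l.comp (R : W →L[ℝ] W))

theorem Phi_usc {Ks : ℕ → Set (Fin n → ℝ)} {K : Set (Fin n → ℝ)}
    (hKs : ∀ j, Body (Ks j)) (hK : Body K) (hn : 0 < n)
    (h : Tendsto (fun j => Metric.hausdorffDist (Ks j) K) atTop (𝓝 0))
    {v : (Fin n → ℝ) × (Fin n → ℝ) → W} (hv : Continuous v) {D : Set W}
    (hD : (0 : W) ∈ interior D) : ∃ j0 : ℕ, ∀ j, j0 ≤ j → Phi v (Ks j) ⊆ Phi v K + D := by
  have hG := gconv_of_hausdorff hKs hK h
  have hproper : ProperSpace W := FiniteDimensional.proper ℝ W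
  rw [← eventually_atTop]
  by_contra hcon
  rw [not_eventually] at hcon
  -- uniform bound
  have hbd : ∀ᶠ j in atTop, ∫ p, ‖v p‖ ∂(cm (Ks j)) < (∫ p, ‖v p‖ ∂(cm K)) + 1 :=
    (tendsto_integral_cm hKs hK hn hG hv.norm).eventually (gt_mem_nhds (by linarith))
  obtain ⟨φ, hφ, hφ'⟩ := extraction_of_frequently_atTop (hcon.and_eventually hbd)
  have hex : ∀ i, ∃ w ∈ Phi v (Ks (φ i)), w ∉ Phi v K + D := fun i => by
    obtain ⟨w, hw, hw'⟩ := Set.not_subset.mp (hφ' i).1
    exact ⟨w, hw, hw'⟩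
  choose w hw hw' using hex
  set M := (∫ p, ‖v p‖ ∂(cm K)) + 1 with hM
  have hM0 : 0 ≤ M := by
    have : 0 ≤ ∫ p, ‖v p‖ ∂(cm K) := integral_nonneg fun _ => norm_nonneg _
    linarith
  have hwM : ∀ i, w i ∈ Metric.closedBall (0 : W) M := by
    intro i
    rw [mem_closedBall_zero_iff]
    refine suppSet_bounded (h := cosT (hm (Ks (φ i))) v) hM0 (fun l => ?_) _ (hw i)
    refine (cosT_le (integrable_hm (hKs _) hn hv) l).trans ?_
    refine mul_le_mul_of_nonneg_right ?_ (norm_nonneg _)
    have := isFinite_cm (hKs (φ i))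
    exact (integral_mono_measure inf_le_left (Eventually.of_forall fun _ => norm_nonneg _)
      (integrable_of_continuous (hKs _) (cm_ae_nor (hKs _) hn) hv.norm)).trans (hφ' i).2.le
  obtain ⟨w0, -, ψ, hψ, hlim⟩ := (isCompact_closedBall (0 : W) M).tendsto_subseq hwM
  have hw0 : w0 ∈ Phi v K := by
    intro l
    by_contra hc
    push Not at hc
    obtain ⟨b, hb1, hb2⟩ := exists_between hc
    have hev := usc_integral hKs hK hn hG ((l.continuous.comp hv).abs)
      (fun p => abs_nonneg _) (b := b) hb1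
    have hev2 : ∀ᶠ i in atTop, l (w (ψ i)) ≤ b := by
      have ht : Tendsto (fun i => φ (ψ i)) atTop atTop :=
        hφ.tendsto_atTop.comp hψ.tendsto_atTop
      filter_upwards [ht.eventually hev] with i hi
      exact (hw (ψ i) l).trans hi.le
    have := le_of_tendsto ((l.continuous.tendsto w0).comp hlim) hev2
    linarith
  have hsub : Tendsto (fun i => w (ψ i) - w0) atTop (𝓝 0) := by
    have := hlim.sub_const w0
    rw [sub_self] at this
    exact this
  obtain ⟨i, hi⟩ := (hsub.eventually (mem_interior_iff_mem_nhds.mp hD)).exists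
  exact hw' (ψ i) ⟨w0, hw0, _, hi, add_sub_cancel _ _⟩

end Val

/-! ### polytopes -/

theorem hasFDerivAt_dot (f y : Fin n → ℝ) : HasFDerivAt (fun w : Fin n → ℝ => f ⬝ᵥ w)
    (∑ i, (f i) • (ContinuousLinearMap.proj i : (Fin n → ℝ) →L[ℝ] ℝ)) y := by
  unfold dotProduct
  refine HasFDerivAt.fun_sum fun i _ => ?_
  exact ((ContinuousLinearMap.proj i : (Fin n → ℝ) →L[ℝ] ℝ).hasFDerivAt).const_mul (f i)

theorem grad_dot (f y : Fin n → ℝ) : grad (fun w : Fin n → ℝ => f ⬝ᵥ w) y = f := by
  funext i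
  simp only [grad, (hasFDerivAt_dot f y).fderiv]
  simp [Pi.single_apply]

theorem grad_pol_mem {F : Set (Fin n → ℝ)} (h : Body (convexHull ℝ F))
    (hF : F.Finite) {y : Fin n → ℝ}
    (hy : DifferentiableAt ℝ (gauge (pol (convexHull ℝ F))) y) :
    grad (gauge (pol (convexHull ℝ F))) y ∈ F := by
  obtain ⟨x, hx, hxe⟩ := h.exists_dot_eq y
  obtain ⟨f, hf, hfe⟩ : ∃ f ∈ F, gauge (pol (convexHull ℝ F)) y ≤ f ⬝ᵥ y := by
    by_contra hcon
    push Not at hcon
    have hsub : convexHull ℝ F ⊆ {w | w ⬝ᵥ y < gauge (pol (convexHull ℝ F)) y} := by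
      refine convexHull_min hcon ?_
      intro a ha b hb s t hs ht hst
      simp only [mem_ofPred_eq] at ha hb ⊢
      rw [add_dotProduct, smul_dotProduct, smul_dotProduct, smul_eq_mul, smul_eq_mul]
      set g := gauge (pol (convexHull ℝ F)) y
      have e1 : g = s * g + t * g := by rw [← add_mul, hst, one_mul]
      rcases hs.lt_or_eq with h1 | h1
      · have e2 : s * (a ⬝ᵥ y) < s * g := mul_lt_mul_of_pos_left ha h1
        have e3 : t * (b ⬝ᵥ y) ≤ t * g := mul_le_mul_of_nonneg_left hb.le ht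
        linarith
      · subst h1; simp only [zero_add] at hst; subst hst; linarith
    have := hsub hx
    simp only [mem_ofPred_eq] at this
    linarith
  have hle : ∀ w, f ⬝ᵥ w ≤ gauge (pol (convexHull ℝ F)) w := by
    intro w
    have h1 := h.dot_le f w
    have h2 := (h.gauge_le_one f).mpr (subset_convexHull ℝ F hf)
    have h3 := gauge_nonneg (s := pol (convexHull ℝ F)) w
    nlinarith
  have h1 := grad_eq_of_le (hasFDerivAt_dot f y).differentiableAt hy hle
    (le_antisymm (hle y) hfe)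
  rw [grad_dot] at h1
  rw [← h1]; exact hf

theorem hm_polytope {F : Set (Fin n → ℝ)} (h : Body (convexHull ℝ F)) (hF : F.Finite)
    (hn : 2 ≤ n) : hm (convexHull ℝ F) = 0 := by
  have hn0 : 0 < n := by omega
  set A : Set ((Fin n → ℝ) × (Fin n → ℝ)) := Prod.fst ⁻¹' F with hA
  have hAm : MeasurableSet A := measurable_fst hF.measurableSet
  have h1 : cm (convexHull ℝ F) A = 0 := by
    rw [cm_apply h hAm]
    have hsub : G (convexHull ℝ F) ⁻¹' A ∩ convexHull ℝ F ⊆
        {0} ∪ ⋃ f ∈ F, (Submodule.span ℝ {f} : Set (Fin n → ℝ)) := by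
      rintro z ⟨hz, -⟩
      rcases eq_or_ne z 0 with h0 | h0
      · exact Or.inl h0
      · refine Or.inr ?_
        simp only [mem_iUnion]
        refine ⟨_, hz, ?_⟩
        simp only [G]
        have hp := h.gauge_pos h0
        rw [SetLike.mem_coe, Submodule.mem_span_singleton]
        exact ⟨gauge (convexHull ℝ F) z, by rw [smul_smul, mul_inv_cancel₀ hp.ne', one_smul]⟩
    refine measure_mono_null hsub ?_
    rw [measure_union_null_iff]
    constructor
    · have : Nonempty (Fin n) := ⟨⟨0, hn0⟩⟩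
      have : Nontrivial (Fin n → ℝ) := Function.nontrivial
      simp
    · rw [measure_biUnion_null_iff hF.countable]
      intro f hf
      refine Measure.addHaar_submodule _ _ ?_
      intro htop
      have h2 : Module.finrank ℝ (Submodule.span ℝ {f}) ≤ 1 := by
        have := finrank_span_le_card (R := ℝ) ({f} : Set (Fin n → ℝ))
        simpa using this
      rw [htop, finrank_top, Module.finrank_fin_fun] at h2
      omega
  have h2 : dm (convexHull ℝ F) Aᶜ = 0 := by
    rw [dm_apply _ hAm.compl, cm_apply h.pol (measurable_swap hAm.compl)]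
    have : ∀ᵐ y : Fin n → ℝ, y ∉ (G (pol (convexHull ℝ F)) ⁻¹' (Prod.swap ⁻¹' Aᶜ) ∩
        pol (convexHull ℝ F)) := by
      filter_upwards [h.pol.ae_diff] with y hy hy'
      exact hy'.1 (grad_pol_mem h hF hy)
    rw [ae_iff] at this
    simp only [not_not] at this
    exact this
  have h3 : hm (convexHull ℝ F) univ = 0 := by
    refine le_antisymm ?_ zero_le
    rw [hm, Measure.inf_apply MeasurableSet.univ]
    refine sInf_le ⟨A, ?_⟩
    rw [inter_univ, inter_univ, h1, h2, add_zero]
  exact Measure.measure_univ_eq_zero.mp h3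

theorem Phi_polytope {W : Type*} [NormedAddCommGroup W] [NormedSpace ℝ W]
    (v : (Fin n → ℝ) × (Fin n → ℝ) → W)
    {F : Set (Fin n → ℝ)} (h : Body (convexHull ℝ F)) (hF : F.Finite)
    (hn : 2 ≤ n) : Phi v (convexHull ℝ F) = {0} := by
  unfold Phi
  rw [hm_polytope h hF hn]
  have : cosT (0 : Measure ((Fin n → ℝ) × (Fin n → ℝ))) v = fun _ => 0 := by
    funext l; simp [cosT]
  rw [this]
  ext x
  simp only [suppSet, mem_ofPred_eq, mem_singleton_iff]
  constructor
  · intro hx
    obtain ⟨g, -, hgx⟩ := exists_dual_vector'' ℝ x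
    have h1 := hx g
    rw [hgx] at h1
    simp only [RCLike.ofReal_real_eq_id, id_eq] at h1
    exact norm_le_zero_iff.mp h1
  · rintro rfl l
    simp

/-! ### the Euclidean ball -/

/-- the Euclidean ball -/
def eball (n : ℕ) : Set (Fin n → ℝ) := {x | x ⬝ᵥ x ≤ 1}

theorem dot_le_half (x y : Fin n → ℝ) : x ⬝ᵥ y ≤ (x ⬝ᵥ x + y ⬝ᵥ y) / 2 := by
  have h : 0 ≤ (x - y) ⬝ᵥ (x - y) := by
    unfold dotProduct; exact Finset.sum_nonneg fun i _ => mul_self_nonneg _
  rw [sub_dotProduct, dotProduct_sub, dotProduct_sub, dotProduct_comm y x] at h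
  linarith

theorem eball_body (n : ℕ) : Body (eball n) := by
  have hcoord : ∀ x ∈ eball n, ∀ i, |x i| ≤ 1 := by
    intro x hx i
    have h1 : x i * x i ≤ x ⬝ᵥ x := by
      unfold dotProduct
      exact Finset.single_le_sum (f := fun i => x i * x i) (fun j _ => mul_self_nonneg _)
        (Finset.mem_univ i)
    have h2 : x ⬝ᵥ x ≤ 1 := hx
    rw [abs_le]
    constructor <;> nlinarith
  refine ⟨?_, ?_, ?_⟩
  · refine Metric.isCompact_of_isClosed_isBounded ?_ ?_
    · refine isClosed_le ?_ continuous_const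
      unfold dotProduct; fun_prop
    · refine (Metric.isBounded_closedBall (x := (0 : Fin n → ℝ)) (r := 1)).subset ?_
      intro x hx
      rw [mem_closedBall_zero_iff, pi_norm_le_iff_of_nonneg zero_le_one]
      exact hcoord x hx
  · intro x hx y hy a b ha hb hab
    have h1 := dot_le_half x y
    have hx : x ⬝ᵥ x ≤ 1 := hx
    have hy : y ⬝ᵥ y ≤ 1 := hy
    show (a • x + b • y) ⬝ᵥ (a • x + b • y) ≤ 1
    simp only [add_dotProduct, dotProduct_add, smul_dotProduct, dotProduct_smul, smul_eq_mul,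
      dotProduct_comm y x]
    have h2 : a * b * (x ⬝ᵥ y) ≤ a * b := by
      have := mul_nonneg ha hb
      nlinarith
    have h3 : a * (a * (x ⬝ᵥ x)) ≤ a * a := by
      have := mul_nonneg ha ha
      nlinarith
    have h4 : b * (b * (y ⬝ᵥ y)) ≤ b * b := by
      have := mul_nonneg hb hb
      nlinarith
    have h5 : (a + b) * (a + b) = 1 := by rw [hab]; norm_num
    nlinarith
  · rw [mem_interior_iff_mem_nhds]
    have hc : Continuous fun x : Fin n → ℝ => x ⬝ᵥ x := by unfold dotProduct; fun_prop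
    have h0 : (0 : Fin n → ℝ) ⬝ᵥ 0 < 1 := by simp
    filter_upwards [hc.continuousAt.eventually (gt_mem_nhds h0)] with x hx
    exact le_of_lt hx

theorem pol_eball (n : ℕ) : pol (eball n) = eball n := by
  ext y
  constructor
  · intro hy
    by_contra hcon
    have h1 : 1 < y ⬝ᵥ y := not_le.mp hcon
    set s := Real.sqrt (y ⬝ᵥ y) with hs
    have hs2 : s * s = y ⬝ᵥ y := Real.mul_self_sqrt (by linarith)
    have hs0 : 0 < s := Real.sqrt_pos.mpr (by linarith)
    have h2 : s⁻¹ • y ∈ eball n := by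
      show (s⁻¹ • y) ⬝ᵥ (s⁻¹ • y) ≤ 1
      rw [smul_dotProduct, dotProduct_smul, smul_eq_mul, smul_eq_mul, ← hs2]
      field_simp
      exact le_rfl
    have h3 := hy _ h2
    rw [smul_dotProduct, smul_eq_mul, ← hs2] at h3
    have h4 : s⁻¹ * (s * s) = s := by field_simp
    rw [h4] at h3
    nlinarith
  · intro hy x hx
    have h1 := dot_le_half x y
    have hx : x ⬝ᵥ x ≤ 1 := hx
    have hy : y ⬝ᵥ y ≤ 1 := hy
    linarith

theorem nor_eball {p : (Fin n → ℝ) × (Fin n → ℝ)} (hp : p ∈ nor (eball n)) : p.2 = p.1 := by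
  have h1 : p.1 ⬝ᵥ p.1 ≤ 1 := hp.1
  have h2 : p.2 ⬝ᵥ p.2 ≤ 1 := by
    have := hp.2.1
    rw [pol_eball] at this
    exact this
  have h3 := hp.2.2
  have h4 : (p.2 - p.1) ⬝ᵥ (p.2 - p.1) = 0 := by
    apply le_antisymm
    · rw [sub_dotProduct, dotProduct_sub, dotProduct_sub, dotProduct_comm p.2 p.1]
      linarith
    · unfold dotProduct; exact Finset.sum_nonneg fun i _ => mul_self_nonneg _
  have h5 := dotProduct_self_eq_zero.mp h4
  exact sub_eq_zero.mp h5

theorem hm_eball (hn : 0 < n) : hm (eball n) = cm (eball n) := by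
  have : dm (eball n) = cm (eball n) := by
    rw [dm, pol_eball]
    conv_rhs => rw [← Measure.map_id (μ := cm (eball n))]
    refine Measure.map_congr ?_
    filter_upwards [cm_ae_nor (eball_body n) hn] with p hp
    have := nor_eball hp
    exact Prod.ext this this.symm
  rw [hm, this, inf_idem]

theorem Phi_eball_ne {W : Type*} [NormedAddCommGroup W] [NormedSpace ℝ W]
    [FiniteDimensional ℝ W] {v : (Fin n → ℝ) × (Fin n → ℝ) → W} (hv : Continuous v)
    (hn : 0 < n) (i j : Fin n) (l : W →L[ℝ] ℝ) (hl : ∀ p, l (v p) = p.1 i * p.2 j)  :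
    Phi v (eball n) ≠ {0} := by
  have hcomp : CompleteSpace W := FiniteDimensional.complete ℝ W
  intro hcon
  obtain ⟨b, hb, hb'⟩ := cosT_attained (integrable_hm (eball_body n) hn hv) l
  have hb0 : b = 0 := by
    have : b ∈ Phi v (eball n) := hb
    rw [hcon] at this
    exact this
  rw [hb0, map_zero] at hb'
  have h0 : cosT (hm (eball n)) v l = 0 := le_antisymm hb' (cosT_nonneg _ _ _)
  unfold cosT at h0
  simp_rw [hl] at h0
  rw [hm_eball hn, integral_eq_zero_iff_of_nonneg (fun _ => abs_nonneg _)] at h0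
  · have h1 : ∀ᵐ z ∂(volume.restrict (eball n)), |(G (eball n) z).1 i * (G (eball n) z).2 j| = 0 := by
      have := ae_of_ae_map (measurable_G (eball_body n)).aemeasurable h0
      exact this
    -- hence `z i * z j = 0` a.e. on the ball
    have h2 : ∀ᵐ z ∂(volume.restrict (eball n)), z i = 0 ∨ z j = 0 := by
      filter_upwards [h1, ae_restrict_of_ae ((eball_body n).ae_G_mem hn),
        ae_restrict_of_ae (ae_ne_zero hn)] with z hz1 hz2 hz3
      rw [nor_eball hz2] at hz1
      simp only [G, abs_eq_zero, Pi.smul_apply, smul_eq_mul, mul_eq_zero, inv_eq_zero] at hz1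
      have := ((eball_body n).gauge_pos hz3).ne'
      tauto
    have h3 : volume (eball n) = 0 := by
      have h4 : eball n ⊆ (eball n ∩ {z | ¬ (z i = 0 ∨ z j = 0)}) ∪ ({z | z i = 0} ∪ {z | z j = 0}) := by
        intro z hz
        by_cases h : z i = 0 ∨ z j = 0
        · exact Or.inr h
        · exact Or.inl ⟨hz, h⟩
      refine measure_mono_null h4 ?_
      have hcoord : ∀ k : Fin n, volume {z : Fin n → ℝ | z k = 0} = 0 := by
        intro k
        have e : {z : Fin n → ℝ | z k = 0} =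
            (LinearMap.ker (LinearMap.proj k : (Fin n → ℝ) →ₗ[ℝ] ℝ) : Set (Fin n → ℝ)) := by
          ext z; simp
        rw [e]
        refine Measure.addHaar_submodule _ _ ?_
        intro htop
        have h5 : (Pi.single k (1:ℝ) : Fin n → ℝ) ∈
            LinearMap.ker (LinearMap.proj k : (Fin n → ℝ) →ₗ[ℝ] ℝ) := by
          rw [htop]; exact Submodule.mem_top
        simp at h5
      rw [measure_union_null_iff, measure_union_null_iff]
      refine ⟨?_, hcoord i, hcoord j⟩
      rw [ae_restrict_iff' (eball_body n).cpt.measurableSet, ae_iff] at h2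
      convert h2 using 2
      ext z
      simp only [mem_inter_iff, mem_ofPred_eq]
      tauto
    have h4 : 0 < volume (interior (eball n)) :=
      isOpen_interior.measure_pos volume ⟨0, (eball_body n).int⟩
    have h5 := measure_mono (μ := volume) (interior_subset (s := eball n))
    rw [h3] at h5
    exact absurd h4 (not_lt.mpr h5)
  · have hc : Continuous fun p : (Fin n → ℝ) × (Fin n → ℝ) => |p.1 i * p.2 j| := by fun_prop
    have := isFinite_cm (eball_body n)
    exact integrable_of_continuous (eball_body n) (cm_ae_nor (eball_body n) hn) hc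

/-- the cross-polytope is a neighbourhood of zero -/
theorem cross_nhds (hn : 0 < n) {F : Set (Fin n → ℝ)}
    (hF : ∀ i, (Pi.single i (1:ℝ) : Fin n → ℝ) ∈ F ∧ (Pi.single i (-1:ℝ) : Fin n → ℝ) ∈ F) :
    (0 : Fin n → ℝ) ∈ interior (convexHull ℝ F) := by
  rw [mem_interior_iff_mem_nhds]
  have hnR : (0:ℝ) < n := by exact_mod_cast hn
  filter_upwards [Metric.ball_mem_nhds (0 : Fin n → ℝ) (by positivity : (0:ℝ) < 1 / n)] with x hx
  rw [mem_ball_zero_iff] at hx
  have hxi : ∀ i, |n * x i| ≤ 1 := by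
    intro i
    have h1 := (norm_le_pi_norm x i).trans hx.le
    rw [Real.norm_eq_abs] at h1
    rw [abs_mul, abs_of_pos hnR]
    calc (n:ℝ) * |x i| ≤ n * (1 / n) := by gcongr
      _ = 1 := by field_simp
  have hmem : ∀ i, (Pi.single i (n * x i) : Fin n → ℝ) ∈ convexHull ℝ F := by
    intro i
    have h1 := subset_convexHull ℝ F (hF i).1
    have h2 := subset_convexHull ℝ F (hF i).2
    have h3 := abs_le.mp (hxi i)
    have h4 := (convex_convexHull ℝ F) h1 h2 (a := (1 + n * x i) / 2) (b := (1 - n * x i) / 2)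
      (by linarith) (by linarith) (by ring)
    convert h4 using 1
    ext j
    by_cases hj : j = i
    · subst hj; simp; ring
    · simp [hj]
  have hsum : x = ∑ i : Fin n, ((n:ℝ)⁻¹) • (Pi.single i (n * x i) : Fin n → ℝ) := by
    ext j
    rw [Finset.sum_apply]
    simp [Pi.single_apply]
    field_simp
  rw [hsum]
  refine (convex_convexHull ℝ F).sum_mem (fun i _ => by positivity) ?_ fun i _ => hmem i
  simp
  field_simp

theorem exists_polytope_approx (hn : 0 < n) {ε : ℝ} (hε : 0 < ε) :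
    ∃ F : Set (Fin n → ℝ), F.Finite ∧ Body (convexHull ℝ F) ∧
      Metric.hausdorffDist (convexHull ℝ F) (eball n) ≤ ε := by
  have hB := eball_body n
  obtain ⟨t, htB, htf, htc⟩ := hB.cpt.finite_cover_balls hε
  set E : Set (Fin n → ℝ) := (Set.range fun i : Fin n => (Pi.single i (1:ℝ) : Fin n → ℝ)) ∪
    (Set.range fun i : Fin n => (Pi.single i (-1:ℝ) : Fin n → ℝ)) with hE
  have hEf : E.Finite := (Set.finite_range _).union (Set.finite_range _)
  have hEB : E ⊆ eball n := by
    rintro _ (⟨i, rfl⟩ | ⟨i, rfl⟩)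
    · show (Pi.single i (1:ℝ) : Fin n → ℝ) ⬝ᵥ (Pi.single i (1:ℝ) : Fin n → ℝ) ≤ 1
      simp
    · show (Pi.single i (-1:ℝ) : Fin n → ℝ) ⬝ᵥ (Pi.single i (-1:ℝ) : Fin n → ℝ) ≤ 1
      simp
  have hsub : convexHull ℝ (t ∪ E) ⊆ eball n := convexHull_min (union_subset htB hEB) hB.cvx
  have hfin := htf.union hEf
  refine ⟨t ∪ E, hfin, ⟨hfin.isCompact_convexHull (𝕜 := ℝ), convex_convexHull ℝ _, ?_⟩, ?_⟩
  · refine cross_nhds hn fun i => ⟨Or.inr (Or.inl ⟨i, rfl⟩), Or.inr (Or.inr ⟨i, rfl⟩)⟩
  · refine Metric.hausdorffDist_le_of_mem_dist hε.le ?_ ?_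
    · intro x hx
      exact ⟨x, hsub hx, by rw [dist_self]; exact hε.le⟩
    · intro x hx
      have h1 := htc hx
      simp only [mem_iUnion] at h1
      obtain ⟨y, hy, hxy⟩ := h1
      exact ⟨y, subset_convexHull ℝ _ (Or.inl hy), (Metric.mem_ball.mp hxy).le⟩

end Pool.Agent.H821R3
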